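import Pool.Agent.V11319.Comm.Prime

/-! The ideal of the anti-diagonal entries is prime (in normal form). -/

set_option autoImplicit false
set_option linter.unusedSectionVars false

open MvPolynomial Finset

namespace Pool.Agent.V11319.Comm

variable {ι : Type*} [Fintype ι] [LinearOrder ι] {K : Type*} [Field K] {τ : ι → ι}

variable (K τ) in
noncomputable def GA (a : ι) : Ideal (MvPolynomial (Vr ι) K) :=
  Ideal.span {G2 K τ a} ⊔ Ideal.span {G3 K τ a}

lemma G2_eq (a : ι) : G2 K τ a = X ((a, a), false) * X ((a, τ a), true)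
    + (-X ((a, a), true) * X ((a, τ a), false) + r τ a) := by
  unfold G2 w; ring

lemma G3_eq (a : ι) : G3 K τ a = -X ((a, a), false) * X ((τ a, a), true)
    + (X ((a, a), true) * X ((τ a, a), false) + r τ (τ a)) := by
  unfold G3 w; ring

lemma hfr (hτ : Function.Involutive τ) {a : ι} {v : Vr ι} (hv : Bv τ a v) (c : ι) :
    fr v (r (K := K) τ c) := fr_r_blk hτ (Bv_blk hτ hv) _

lemma fr_G2 (hτ : Function.Involutive τ) {a : ι} (ha : a ≠ τ a) (ε : Bool) :
    fr ((τ a, a), ε) (G2 K τ a) := by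
  unfold G2
  refine fr_add (fr_w ?_ ?_) (hfr hτ (a := a) (Or.inr (Or.inr rfl)) a)
  · simp [ha.symm]
  · simp [ha]

/-- the two equations modulo a block-free ideal -/
lemma anti_reg (hτ : Function.Involutive τ) {a : ι} (ha : a < τ a)
    {Z : Ideal (MvPolynomial (Vr ι) K)} (hZ : ∀ v, Bv τ a v → Fr v Z) :
    Reg Z (G2 K τ a) ∧ Reg (Z ⊔ Ideal.span {G2 K τ a}) (X ((a, a), false)) ∧
      Reg (Z ⊔ Ideal.span {G2 K τ a}) (G3 K τ a) := by
  have hne : a ≠ τ a := ha.ne
  have B1 : ∀ ε, Bv τ a ((a, a), ε) := fun ε => Or.inl rfl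
  have B2 : ∀ ε, Bv τ a ((a, τ a), ε) := fun ε => Or.inr (Or.inl rfl)
  have B3 : ∀ ε, Bv τ a ((τ a, a), ε) := fun ε => Or.inr (Or.inr rfl)
  have n1 : ((a, a), false) ≠ ((a, τ a), true) := by simp
  have n2 : ((a, a), true) ≠ ((a, τ a), true) := by simp [hne]
  have n3 : ((a, τ a), false) ≠ ((a, τ a), true) := by simp
  have n4 : ((a, a), true) ≠ ((a, τ a), false) := by simp
  have n5 : ((a, a), false) ≠ ((a, τ a), false) := by simp [hne]
  have n6 : ((a, a), false) ≠ ((a, a), true) := by simp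
  have R1 : Reg Z (G2 K τ a) :=
    reg_lin (x := ((a, τ a), true)) (a := X ((a, a), false))
      (b := -X ((a, a), true) * X ((a, τ a), false) + r τ a) (hZ _ (B2 _)) (fr_X n1)
      (fr_add (fr_mul (fr_neg (fr_X n2)) (fr_X n3)) (hfr hτ (B2 _) _)) (reg_var (hZ _ (B1 _)))
      (G2_eq a)
  have R2 : Reg (Z ⊔ Ideal.span {G2 K τ a}) (X ((a, a), false)) := by
    refine reg_switch (reg_var (hZ _ (B1 _))) ?_
    have h1 : Reg (Z ⊔ Ideal.span {X ((a, a), false)})
        (-X ((a, a), true) * X ((a, τ a), false) + r τ a) :=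
      reg_lin (x := ((a, τ a), false)) (a := -X ((a, a), true)) (b := r τ a)
        (Fr_sup (hZ _ (B2 _)) (Fr_singleton (fr_X n5))) (fr_neg (fr_X n4)) (hfr hτ (B2 _) _)
        (reg_neg (reg_var (Fr_sup (hZ _ (B1 _)) (Fr_singleton (fr_X n6))))) rfl
    refine reg_congr h1 ?_
    have : -X ((a, a), true) * X ((a, τ a), false) + r τ a - G2 K τ a
        = X ((a, a), false) * (-X ((a, τ a), true)) := by rw [G2_eq]; ring
    rw [this]
    exact Ideal.mul_mem_right _ _ (mem_self _)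
  refine ⟨R1, R2, ?_⟩
  refine reg_lin (x := ((τ a, a), true)) (a := -X ((a, a), false))
    (b := X ((a, a), true) * X ((τ a, a), false) + r τ (τ a))
    (Fr_sup (hZ _ (B3 _)) (Fr_singleton (fr_G2 hτ hne _))) (fr_neg (fr_X (by simp)))
    (fr_add (fr_mul (fr_X (by simp [hne])) (fr_X (by simp))) (hfr hτ (B3 _) _))
    (reg_neg R2) (G3_eq a)

lemma Fr_GA (hτ : Function.Involutive τ) {a b : ι} (ha : a < τ a) (hb : b < τ b) (hab : a ≠ b)
    {v : Vr ι} (hv : Bv τ b v) : Fr v (GA K τ a) := by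
  obtain ⟨n1, n2, n3⟩ := rep_ne hτ ha.le hb.le hab
  have hv1 : v.1.1 ≠ a ∧ v.1.1 ≠ τ a := by
    rcases hv with h | h | h <;> rw [h]
    · exact ⟨hab.symm, n1⟩
    · exact ⟨hab.symm, n1⟩
    · exact ⟨n2, n3⟩
  have hw : ∀ i j k : ι, (i = a ∨ i = τ a) → (j = a ∨ j = τ a) → fr v (w (K := K) i j k) := by
    intro i j k hi hj
    refine fr_w (fun h => ?_) (fun h => ?_)
    · rw [h] at hv1
      rcases hi with h' | h'
      · exact hv1.1 h'
      · exact hv1.2 h'
    · rw [h] at hv1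
      rcases hj with h' | h'
      · exact hv1.1 h'
      · exact hv1.2 h'
  unfold GA G2 G3
  exact Fr_sup
    (Fr_singleton (fr_add (hw _ _ _ (by simp) (by simp)) (fr_r_blk hτ (Bv_blk hτ hv) _)))
    (Fr_singleton (fr_add (hw _ _ _ (by simp) (by simp)) (fr_r_blk hτ (Bv_blk hτ hv) _)))

/-- lifting regularity through the blocks -/
lemma anti_lift (hτ : Function.Involutive τ) {I0 : Ideal (MvPolynomial (Vr ι) K)}
    (hI0 : ∀ a v, Bv τ a v → Fr v I0) {f : MvPolynomial (Vr ι) K} (hf : ∀ a v, Bv τ a v → fr v f)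
    (h0 : Reg I0 f) (L : Finset ι) (hL : ∀ a ∈ L, a < τ a) :
    Reg (I0 ⊔ L.sup (GA K τ)) f := by
  classical
  induction L using Finset.induction_on with
  | empty => rw [Finset.sup_empty, sup_bot_eq]; exact h0
  | insert b L hbL ih =>
    have hLb : ∀ a ∈ L, a < τ a := fun a ha => hL a (mem_insert_of_mem ha)
    have hb := hL b (mem_insert_self _ _)
    have ih' := ih hLb
    set Y := I0 ⊔ L.sup (GA K τ) with hY
    have hFY : ∀ v, Bv τ b v → Fr v Y := by
      intro v hv
      refine Fr_sup (hI0 b v hv) (Fr_fsup _ (fun a ha => ?_))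
      exact Fr_GA hτ (hLb a ha) hb (by rintro rfl; exact hbL ha) hv
    obtain ⟨r1, _, r3⟩ := anti_reg (K := K) hτ hb (Z := Y ⊔ Ideal.span {f})
      (fun v hv => Fr_sup (hFY v hv) (Fr_singleton (hf b v hv)))
    have s1 := reg_switch ih' r1
    rw [sup_right_comm] at r3
    have s2 := reg_switch s1 r3
    have e : I0 ⊔ (insert b L).sup (GA K τ) = Y ⊔ Ideal.span {G2 K τ b} ⊔ Ideal.span {G3 K τ b} := by
      have hG : GA K τ b = Ideal.span {G2 K τ b} ⊔ Ideal.span {G3 K τ b} := rfl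
      rw [Finset.sup_insert, hY, hG]
      generalize L.sup (GA K τ) = M
      generalize Ideal.span {G2 K τ b} = B
      generalize Ideal.span {G3 K τ b} = C
      ac_rfl
    rw [e]
    exact s2

theorem anti_prime (hτ : Function.Involutive τ) {I0 : Ideal (MvPolynomial (Vr ι) K)}
    (hI0 : ∀ a v, Bv τ a v → Fr v I0) (hp : I0.IsPrime)
    (h0 : ∀ b, b < τ b → Reg I0 (r τ b)) (L : Finset ι) (hL : ∀ a ∈ L, a < τ a) :
    (I0 ⊔ L.sup (GA K τ)).IsPrime := by
  classical
  induction L using Finset.induction_on with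
  | empty => rw [Finset.sup_empty, sup_bot_eq]; exact hp
  | insert b L hbL ih =>
    have hLb : ∀ a ∈ L, a < τ a := fun a ha => hL a (mem_insert_of_mem ha)
    have hb := hL b (mem_insert_self _ _)
    have hI := ih hLb
    have hr := anti_lift (K := K) hτ hI0 (fun a v hv => hfr hτ hv b) (h0 b hb) L hLb
    set I := I0 ⊔ L.sup (GA K τ) with hIdef
    have hFI : ∀ v, Bv τ b v → Fr v I := by
      intro v hv
      refine Fr_sup (hI0 b v hv) (Fr_fsup _ (fun a ha => ?_))
      exact Fr_GA hτ (hLb a ha) hb (by rintro rfl; exact hbL ha) hv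
    have hne : b ≠ τ b := hb.ne
    have B1 : ∀ ε, Bv τ b ((b, b), ε) := fun ε => Or.inl rfl
    have B2 : ∀ ε, Bv τ b ((b, τ b), ε) := fun ε => Or.inr (Or.inl rfl)
    have B3 : ∀ ε, Bv τ b ((τ b, b), ε) := fun ε => Or.inr (Or.inr rfl)
    have n1 : ((b, b), false) ≠ ((b, τ b), true) := by simp
    have n2 : ((b, b), true) ≠ ((b, τ b), true) := by simp [hne]
    have n3 : ((b, τ b), false) ≠ ((b, τ b), true) := by simp
    have n4 : ((b, b), true) ≠ ((b, τ b), false) := by simp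
    have n5 : ((b, b), false) ≠ ((b, τ b), false) := by simp [hne]
    have n6 : ((b, b), false) ≠ ((b, b), true) := by simp
    obtain ⟨_, r2, _⟩ := anti_reg (K := K) hτ hb (Z := I) hFI
    have hI1 : (I ⊔ Ideal.span {G2 K τ b}).IsPrime := by
      refine prime_lin (x := ((b, τ b), true)) (a := X ((b, b), false))
        (b := -X ((b, b), true) * X ((b, τ b), false) + r τ b) hI (hFI _ (B2 _)) (fr_X n1)
        (fr_add (fr_mul (fr_neg (fr_X n2)) (fr_X n3)) (hfr hτ (B2 _) _))
        (not_mem_of_reg hI (reg_var (hFI _ (B1 _)))) ?_ (G2_eq b)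
      exact reg_lin (x := ((b, τ b), false)) (a := -X ((b, b), true)) (b := r τ b)
        (Fr_sup (hFI _ (B2 _)) (Fr_singleton (fr_X n5))) (fr_neg (fr_X n4)) (hfr hτ (B2 _) _)
        (reg_neg (reg_var (Fr_sup (hFI _ (B1 _)) (Fr_singleton (fr_X n6))))) rfl
    have e : I0 ⊔ (insert b L).sup (GA K τ) = I ⊔ Ideal.span {G2 K τ b} ⊔ Ideal.span {G3 K τ b} := by
      have hG : GA K τ b = Ideal.span {G2 K τ b} ⊔ Ideal.span {G3 K τ b} := rfl
      rw [Finset.sup_insert, hIdef, hG]
      generalize L.sup (GA K τ) = M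
      generalize Ideal.span {G2 K τ b} = B
      generalize Ideal.span {G3 K τ b} = C
      ac_rfl
    rw [e]
    -- Reg (I ⊔ α1 ⊔ α2) (r b)
    have a1 : Reg (I ⊔ Ideal.span {r τ b}) (X ((b, b), false)) :=
      reg_var (Fr_sup (hFI _ (B1 _)) (Fr_singleton (hfr hτ (B1 _) _)))
    have a2 := reg_switch hr a1
    have a3 : Reg (I ⊔ Ideal.span {X ((b, b), false)} ⊔ Ideal.span {r τ b}) (X ((b, b), true)) :=
      reg_var (Fr_sup (Fr_sup (hFI _ (B1 _)) (Fr_singleton (fr_X n6)))
        (Fr_singleton (hfr hτ (B1 _) _)))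
    have a4 := reg_switch a2 a3
    have a5 : Reg (I ⊔ Ideal.span {X ((b, b), false)} ⊔ Ideal.span {X ((b, b), true)})
        (-X ((b, b), true) * X ((b, τ b), false) + r τ b) := by
      refine reg_congr a4 ?_
      have : (r τ b : MvPolynomial (Vr ι) K)
          - (-X ((b, b), true) * X ((b, τ b), false) + r τ b)
          = X ((b, b), true) * X ((b, τ b), false) := by ring
      rw [this]
      exact Ideal.mul_mem_right _ _ (mem_self _)
    have a6 := reg_switch (reg_var (x := ((b, b), true))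
      (I := I ⊔ Ideal.span {X ((b, b), false)}) (Fr_sup (hFI _ (B1 _)) (Fr_singleton (fr_X n6)))) a5
    have a7 : I ⊔ Ideal.span {G2 K τ b} ⊔ Ideal.span {-X ((b, b), false)}
        = I ⊔ Ideal.span {X ((b, b), false)} ⊔
          Ideal.span {-X ((b, b), true) * X ((b, τ b), false) + r τ b} := by
      rw [span_neg', sup_right_comm]
      apply sup_span_congr
      have : G2 K τ b - (-X ((b, b), true) * X ((b, τ b), false) + r τ b)
          = X ((b, b), false) * X ((b, τ b), true) := by rw [G2_eq]; ring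
      rw [this]
      exact Ideal.mul_mem_right _ _ (mem_self _)
    refine prime_lin (x := ((τ b, b), true)) (a := -X ((b, b), false))
      (b := X ((b, b), true) * X ((τ b, b), false) + r τ (τ b)) hI1
      (Fr_sup (hFI _ (B3 _)) (Fr_singleton (fr_G2 hτ hne _))) (fr_neg (fr_X (by simp)))
      (fr_add (fr_mul (fr_X (by simp [hne])) (fr_X (by simp))) (hfr hτ (B3 _) _))
      (not_mem_of_reg hI1 (reg_neg r2)) ?_ (G3_eq b)
    refine reg_lin (x := ((τ b, b), false)) (a := X ((b, b), true)) (b := r τ (τ b))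
      (Fr_sup (Fr_sup (hFI _ (B3 _)) (Fr_singleton (fr_G2 hτ hne _)))
        (Fr_singleton (fr_neg (fr_X (by simp [hne])))))
      (fr_X (by simp)) (hfr hτ (B3 _) _) ?_ rfl
    rw [a7]
    exact a6

lemma reg_r_bot (h3 : ∀ i, ∃ k, k ≠ i ∧ k ≠ τ i) {b : ι} (hb : b < τ b) :
    Reg (⊥ : Ideal (MvPolynomial (Vr ι) K)) (r τ b) := by
  obtain ⟨k, hk1, hk2⟩ := h3 b
  obtain ⟨r', er, fr'⟩ := r_split (K := K) (τ := τ) hb.ne hk1 hk2
  refine reg_lin (x := ((k, τ b), true)) (a := X ((b, k), false))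
    (b := -X ((b, k), true) * X ((k, τ b), false) + r') Fr_bot (fr_X (by simp))
    (fr_add (fr_mul (fr_neg (fr_X (by simp [hk1.symm]))) (fr_X (by simp))) (fr' true).2.1)
    (reg_var Fr_bot) ?_
  rw [er]; unfold w; ring

lemma reg_r_fix (h3 : ∀ i, ∃ k, k ≠ i ∧ k ≠ τ i) {b c : ι} (hb : b < τ b)
    (hc : τ c = c) (hbc : b ≠ c) (hbc' : τ b ≠ c) :
    Reg (⊥ ⊔ Ideal.span {t τ c} : Ideal (MvPolynomial (Vr ι) K)) (r τ b) := by
  refine reg_switch (reg_r_bot h3 hb) ?_
  obtain ⟨t', et, ft1, ft2, _⟩ := t_split (K := K) (τ := τ) (j := c) (k := b) hbc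
    (by rw [hc]; exact hbc)
  obtain ⟨r', er, fr'⟩ := r_split (K := K) (τ := τ) (a := b) (k := c) hb.ne hbc.symm hbc'.symm
  have f1 : ∀ ε, fr ((c, b), ε) (r (K := K) τ b) := by
    intro ε
    unfold r
    refine fr_sum _ (fun k _ => fr_w (fun h => ?_) (fun h => ?_))
    · exact hbc (Prod.ext_iff.1 h).1.symm
    · exact hb.ne (Prod.ext_iff.1 h).2
  have h1 : Reg (⊥ ⊔ Ideal.span {r (K := K) τ b}) (X ((b, c), true)) := by
    refine reg_switch (reg_var Fr_bot) ?_
    have h2 : Reg (⊥ ⊔ Ideal.span {(X ((b, c), true) : MvPolynomial (Vr ι) K)})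
        (X ((b, c), false) * X ((c, τ b), true) + r') :=
      reg_lin (x := ((c, τ b), true)) (a := X ((b, c), false)) (b := r')
        (Fr_sup Fr_bot (Fr_singleton (fr_X (by simp [hbc])))) (fr_X (by simp)) (fr' true).2.1
        (reg_var (Fr_sup Fr_bot (Fr_singleton (fr_X (by simp))))) rfl
    refine reg_congr h2 ?_
    have : X ((b, c), false) * X ((c, τ b), true) + r' - r τ b
        = X ((b, c), true) * X ((c, τ b), false) := by rw [er]; unfold w; ring
    rw [this]
    exact Ideal.mul_mem_right _ _ (mem_self _)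
  refine reg_lin (x := ((c, b), false)) (a := X ((b, c), true))
    (b := -X ((c, b), true) * X ((b, c), false) + t')
    (Fr_sup Fr_bot (Fr_singleton (f1 _))) (fr_X (by simp))
    (fr_add (fr_mul (fr_neg (fr_X (by simp))) (fr_X (by simp [hbc]))) (ft1 false)) h1 ?_
  rw [et]; unfold w; ring

lemma fix_prime (h3 : ∀ i, ∃ k, k ≠ i ∧ k ≠ τ i) {c : ι} :
    (⊥ ⊔ Ideal.span {t τ c} : Ideal (MvPolynomial (Vr ι) K)).IsPrime := by
  obtain ⟨k, hk1, hk2⟩ := h3 c
  obtain ⟨t', et, ft1, ft2, _⟩ := t_split (K := K) (τ := τ) (j := c) (k := k) hk1 hk2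
  exact prime_pivot (p := c) (k := k) hk1.symm Ideal.isPrime_bot (fun b => ⟨Fr_bot, Fr_bot⟩)
    (fun b => ⟨ft1 b, ft2 b⟩) et

variable (K τ) in
/-- the equations of the fixed points -/
noncomputable def F0 : Ideal (MvPolynomial (Vr ι) K) := sp (t τ) (univ.filter (fun c => τ c = c))

theorem J_prime (hτ : Function.Involutive τ) (h3 : ∀ i, ∃ k, k ≠ i ∧ k ≠ τ i)
    (hfix : ∀ i j, τ i = i → τ j = j → i = j)
    (L : Finset ι) (hL : ∀ a ∈ L, a < τ a) : (F0 K τ ⊔ L.sup (GA K τ)).IsPrime := by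
  classical
  have hF : F0 K τ = ⊥ ∨ ∃ c, τ c = c ∧ F0 K τ = ⊥ ⊔ Ideal.span {t τ c} := by
    by_cases h : ∃ c, τ c = c
    · obtain ⟨c, hc⟩ := h
      right
      refine ⟨c, hc, ?_⟩
      have : (univ.filter (fun c => τ c = c)) = {c} := by
        ext i
        simp only [mem_filter, mem_univ, true_and, mem_singleton]
        exact ⟨fun h => hfix i c h hc, fun h => by rw [h]; exact hc⟩
      unfold F0
      rw [this]
      unfold sp
      rw [Finset.sup_singleton, bot_sup_eq]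
    · left
      have : (univ.filter (fun c => τ c = c)) = ∅ := by
        ext i
        simp only [mem_filter, mem_univ, true_and, notMem_empty, iff_false]
        exact fun h' => h ⟨i, h'⟩
      unfold F0
      rw [this, sp_empty]
  refine anti_prime hτ (I0 := F0 K τ) ?_ ?_ ?_ L hL
  · intro a v hv
    unfold F0
    exact Fr_sp (fun i _ => fr_t_blk hτ (Bv_blk hτ hv) _)
  · rcases hF with h | ⟨c, hc, h⟩
    · rw [h]; exact Ideal.isPrime_bot
    · rw [h]; exact fix_prime h3
  · intro b hb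
    rcases hF with h | ⟨c, hc, h⟩
    · rw [h]; exact reg_r_bot h3 hb
    · rw [h]
      refine reg_r_fix h3 hb hc ?_ ?_
      · rintro rfl; exact hb.ne hc.symm
      · intro h'
        have : τ (τ b) = τ b := by rw [h']; exact hc
        rw [hτ] at this
        exact hb.ne this

end Pool.Agent.V11319.Comm
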