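import Pool.Agent.V11319.Comm.Block

/-! The off-block parts of the entries of the commutator. -/

set_option autoImplicit false
set_option linter.unusedSectionVars false

open MvPolynomial Finset

namespace Pool.Agent.V11319.Comm

variable {ι : Type*} [Fintype ι] [LinearOrder ι] {K : Type*} [Field K]

abbrev Vr (ι : Type*) := (ι × ι) × Bool

/-- `x_{ij} y_{jk} - y_{ij} x_{jk}` -/
noncomputable def w (i j k : ι) : MvPolynomial (Vr ι) K :=
  X ((i, j), false) * X ((j, k), true) - X ((i, j), true) * X ((j, k), false)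

lemma fr_w {v : Vr ι} {i j k : ι} (h1 : v.1 ≠ (i, j)) (h2 : v.1 ≠ (j, k)) :
    fr v (w (K := K) i j k) := by
  have e1 : ∀ b, ((i, j), b) ≠ v := fun b h => h1 (by rw [← h])
  have e2 : ∀ b, ((j, k), b) ≠ v := fun b h => h2 (by rw [← h])
  unfold w
  exact fr_sub (fr_mul (fr_X (e1 _)) (fr_X (e2 _))) (fr_mul (fr_X (e1 _)) (fr_X (e2 _)))

lemma w_anti (j k : ι) : w (K := K) j k j = -w k j k := by
  unfold w; ring

variable (τ : ι → ι)

def off (j : ι) : Finset ι := univ.filter (fun k => k ≠ j ∧ k ≠ τ j)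

lemma mem_off {j k : ι} : k ∈ off τ j ↔ k ≠ j ∧ k ≠ τ j := by simp [off]

noncomputable def t (j : ι) : MvPolynomial (Vr ι) K := ∑ k ∈ off τ j, w j k j

noncomputable def r (j : ι) : MvPolynomial (Vr ι) K := ∑ k ∈ off τ j, w j k (τ j)

variable {τ}

lemma fr_t_blk (hτ : Function.Involutive τ) {v : Vr ι} (hv : v.1.2 = v.1.1 ∨ v.1.2 = τ v.1.1)
    (j : ι) : fr v (t (K := K) τ j) := by
  unfold t
  refine fr_sum _ (fun k hk => ?_)
  rw [mem_off] at hk
  refine fr_w (fun h => ?_) (fun h => ?_)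
  · rw [h] at hv
    rcases hv with h' | h'
    · exact hk.1 h'
    · exact hk.2 h'
  · rw [h] at hv
    rcases hv with h' | h'
    · exact hk.1 h'.symm
    · exact hk.2 (by simp only at h'; rw [h', hτ])

lemma fr_r_blk (hτ : Function.Involutive τ) {v : Vr ι} (hv : v.1.2 = v.1.1 ∨ v.1.2 = τ v.1.1)
    (j : ι) : fr v (r (K := K) τ j) := by
  unfold r
  refine fr_sum _ (fun k hk => ?_)
  rw [mem_off] at hk
  refine fr_w (fun h => ?_) (fun h => ?_)
  · rw [h] at hv
    rcases hv with h' | h'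
    · exact hk.1 h'
    · exact hk.2 h'
  · rw [h] at hv
    rcases hv with h' | h'
    · exact hk.2 h'.symm
    · exact hk.1 (hτ.injective h'.symm)

lemma fr_t_off {v : Vr ι} {j : ι} (h1 : v.1.1 ≠ j) (h2 : v.1.2 ≠ j) :
    fr v (t (K := K) τ j) := by
  unfold t
  refine fr_sum _ (fun k hk => fr_w (fun h => h1 (by rw [h])) (fun h => h2 (by rw [h])))

lemma t_split {j k : ι} (h1 : k ≠ j) (h2 : k ≠ τ j) : ∃ t' : MvPolynomial (Vr ι) K,
    t τ j = w j k j + t' ∧ (∀ b, fr ((j, k), b) t') ∧ (∀ b, fr ((k, j), b) t') ∧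
      ∀ v : Vr ι, v.1.1 ≠ j → v.1.2 ≠ j → fr v t' := by
  refine ⟨∑ k' ∈ (off τ j).erase k, w j k' j, ?_, fun b => ?_, fun b => ?_, fun v hv1 hv2 => ?_⟩
  · exact (Finset.add_sum_erase _ (fun k => w j k j) ((mem_off τ).2 ⟨h1, h2⟩)).symm
  · refine fr_sum _ (fun k' hk' => ?_)
    rw [mem_erase, mem_off] at hk'
    refine fr_w (fun h => ?_) (fun h => ?_)
    · exact hk'.1 (Prod.ext_iff.1 h).2.symm
    · exact hk'.2.1 (Prod.ext_iff.1 h).1.symm
  · refine fr_sum _ (fun k' hk' => ?_)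
    rw [mem_erase, mem_off] at hk'
    refine fr_w (fun h => ?_) (fun h => ?_)
    · exact h1 (Prod.ext_iff.1 h).1
    · exact hk'.1 (Prod.ext_iff.1 h).1.symm
  · exact fr_sum _ (fun k' hk' => fr_w (fun h => hv1 (by rw [h])) (fun h => hv2 (by rw [h])))

/-- pivot lemma -/
lemma reg_pivot {p k : ι} (hpk : p ≠ k) {I : Ideal (MvPolynomial (Vr ι) K)}
    (hI : ∀ b, Fr ((p, k), b) I ∧ Fr ((k, p), b) I) {g rest : MvPolynomial (Vr ι) K}
    (hr : ∀ b, fr ((p, k), b) rest ∧ fr ((k, p), b) rest) (hg : g = w p k p + rest) : Reg I g := by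
  have n1 : ((p, k), false) ≠ ((k, p), true) := by simp
  have n2 : ((p, k), true) ≠ ((k, p), true) := by simp [hpk]
  have n3 : ((k, p), false) ≠ ((k, p), true) := by simp
  refine reg_lin (x := ((k, p), true)) (a := X ((p, k), false))
    (b := -X ((p, k), true) * X ((k, p), false) + rest) (hI true).2 (fr_X n1)
    (fr_add (fr_mul (fr_neg (fr_X n2)) (fr_X n3)) (hr true).2) (reg_var (hI false).1) ?_
  rw [hg]; unfold w; ring

lemma prime_pivot {p k : ι} (hpk : p ≠ k) {I : Ideal (MvPolynomial (Vr ι) K)} (hIp : I.IsPrime)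
    (hI : ∀ b, Fr ((p, k), b) I ∧ Fr ((k, p), b) I) {g rest : MvPolynomial (Vr ι) K}
    (hr : ∀ b, fr ((p, k), b) rest ∧ fr ((k, p), b) rest) (hg : g = w p k p + rest) :
    (I ⊔ Ideal.span {g}).IsPrime := by
  have n1 : ((p, k), false) ≠ ((k, p), true) := by simp
  have n2 : ((p, k), true) ≠ ((k, p), true) := by simp [hpk]
  have n3 : ((k, p), false) ≠ ((k, p), true) := by simp
  have n4 : ((p, k), false) ≠ ((k, p), false) := by simp [hpk]
  have n5 : ((p, k), true) ≠ ((k, p), false) := by simp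
  have n6 : ((p, k), false) ≠ ((p, k), true) := by simp
  refine prime_lin (x := ((k, p), true)) (a := X ((p, k), false))
    (b := -X ((p, k), true) * X ((k, p), false) + rest) hIp (hI true).2 (fr_X n1)
    (fr_add (fr_mul (fr_neg (fr_X n2)) (fr_X n3)) (hr true).2)
    (not_mem_of_reg hIp (reg_var (hI false).1)) ?_ (by rw [hg]; unfold w; ring)
  refine reg_lin (x := ((k, p), false)) (a := -X ((p, k), true)) (b := rest)
    (Fr_sup (hI false).2 (Fr_singleton (fr_X n4))) (fr_neg (fr_X n5)) (hr false).2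
    (reg_neg (reg_var (Fr_sup (hI true).1 (Fr_singleton (fr_X n6))))) rfl

/-! ### The traces of the blocks -/

variable (τ)

/-- the block trace, attached to the representative `j ≤ τ j` -/
noncomputable def T (j : ι) : MvPolynomial (Vr ι) K :=
  if j < τ j then t τ j + t τ (τ j) else if τ j = j then t τ j else 0

variable {τ}

lemma T_lt {j : ι} (h : j < τ j) : T (K := K) τ j = t τ j + t τ (τ j) := by
  unfold T; rw [if_pos h]

lemma T_fix {j : ι} (h : τ j = j) : T (K := K) τ j = t τ j := by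
  unfold T; rw [if_neg (by rw [h]; exact lt_irrefl _), if_pos h]

lemma T_gt {j : ι} (h : τ j < j) : T (K := K) τ j = 0 := by
  unfold T; rw [if_neg (not_lt.2 h.le), if_neg h.ne]

lemma sum_t (hτ : Function.Involutive τ) : ∑ j, t (K := K) τ j = 0 := by
  unfold t
  rw [Finset.sum_sigma']
  refine Finset.sum_involution (fun p _ => ⟨p.2, p.1⟩) ?_ ?_ ?_ ?_
  · rintro ⟨j, k⟩ _
    simp only
    rw [w_anti j k, neg_add_cancel]
  · rintro ⟨j, k⟩ h _ heq
    simp only [Finset.mem_sigma, mem_univ, true_and, mem_off] at h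
    have : k = j := by
      have := congrArg Sigma.fst heq
      exact this
    exact h.1 this
  · rintro ⟨j, k⟩ h
    simp only [Finset.mem_sigma, mem_univ, true_and, mem_off] at h ⊢
    exact ⟨h.1.symm, fun h' => h.2 (by rw [h', hτ])⟩
  · rintro ⟨j, k⟩ _
    rfl

lemma sum_T (hτ : Function.Involutive τ) : ∑ j, T (K := K) τ j = 0 := by
  have h1 : ∀ j, T (K := K) τ j = (if j < τ j then t τ j else 0)
      + (if j < τ j then t τ (τ j) else 0) + (if τ j = j then t τ j else 0) := by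
    intro j
    rcases lt_trichotomy j (τ j) with h | h | h
    · rw [T_lt h, if_pos h, if_pos h, if_neg h.ne', add_zero]
    · rw [T_fix h.symm, if_neg (by rw [← h]; exact lt_irrefl _),
        if_neg (by rw [← h]; exact lt_irrefl _), if_pos h.symm]; ring
    · rw [T_gt h, if_neg (not_lt.2 h.le), if_neg (not_lt.2 h.le), if_neg h.ne]; ring
  have h2 : ∑ j, (if j < τ j then t (K := K) τ (τ j) else 0)
      = ∑ j, (if τ j < j then t (K := K) τ j else 0) := by
    have := Equiv.sum_comp hτ.toPerm (fun i => if τ i < i then t (K := K) τ i else 0)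
    rw [← this]
    refine Finset.sum_congr rfl (fun j _ => ?_)
    simp only [Function.Involutive.coe_toPerm, hτ j]
  rw [Finset.sum_congr rfl (fun j _ => h1 j), Finset.sum_add_distrib, Finset.sum_add_distrib, h2,
    ← Finset.sum_add_distrib, ← Finset.sum_add_distrib]
  refine Eq.trans ?_ (sum_t (K := K) hτ)
  refine Finset.sum_congr rfl (fun j _ => ?_)
  rcases lt_trichotomy j (τ j) with h | h | h
  · rw [if_pos h, if_neg (not_lt.2 h.le), if_neg h.ne']; ring
  · rw [if_neg (by rw [← h]; exact lt_irrefl _), if_neg (by rw [← h]; exact lt_irrefl _),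
      if_pos h.symm]; ring
  · rw [if_neg (not_lt.2 h.le), if_pos h, if_neg h.ne]; ring

noncomputable def sp (f : ι → MvPolynomial (Vr ι) K) (U : Finset ι) :
    Ideal (MvPolynomial (Vr ι) K) := U.sup (fun u => Ideal.span {f u})

lemma sp_insert {f : ι → MvPolynomial (Vr ι) K} {U : Finset ι} {a : ι} :
    sp f (insert a U) = Ideal.span {f a} ⊔ sp f U := by
  unfold sp; rw [Finset.sup_insert]

lemma mem_sp {f : ι → MvPolynomial (Vr ι) K} {U : Finset ι} {a : ι} (ha : a ∈ U) :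
    f a ∈ sp f U :=
  (Finset.le_sup (f := fun u => Ideal.span {f u}) ha) (Ideal.mem_span_singleton_self _)

lemma Fr_sp {f : ι → MvPolynomial (Vr ι) K} {U : Finset ι} {v : Vr ι}
    (h : ∀ u ∈ U, fr v (f u)) : Fr v (sp f U) :=
  Fr_fsup _ (fun u hu => Fr_singleton (h u hu))

variable (K τ) in
noncomputable def X0 : Ideal (MvPolynomial (Vr ι) K) := sp (T (K := K) τ) univ

lemma X0_eq (hτ : Function.Involutive τ) (j0 : ι) :
    X0 K τ = sp (T (K := K) τ) (univ.erase j0) := by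
  unfold X0
  have : (univ : Finset ι) = insert j0 (univ.erase j0) := by
    rw [Finset.insert_erase (mem_univ _)]
  conv_lhs => rw [this]
  rw [sp_insert, sup_eq_right, Ideal.span_singleton_le_iff_mem]
  have h1 : T (K := K) τ j0 = -∑ j ∈ univ.erase j0, T τ j := by
    have := Finset.add_sum_erase univ (fun j => T (K := K) τ j) (mem_univ j0)
    rw [sum_T hτ] at this
    exact eq_neg_of_add_eq_zero_left this
  rw [h1]
  exact (Ideal.neg_mem_iff _).2 (Ideal.sum_mem _ (fun j hj => mem_sp hj))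

lemma rep_ne (hτ : Function.Involutive τ) {i j : ι} (hi : i ≤ τ i) (hj : j ≤ τ j) (hij : i ≠ j) :
    j ≠ τ i ∧ τ j ≠ i ∧ τ j ≠ τ i := by
  refine ⟨fun h => ?_, fun h => ?_, fun h => hij (hτ.injective h.symm)⟩
  · subst h
    rw [hτ] at hj
    exact hij (le_antisymm hi hj)
  · have h' : τ i = j := by rw [← h, hτ]
    rw [h'] at hi
    rw [h] at hj
    exact hij (le_antisymm hi hj)

lemma fr_T_off {v : Vr ι} {i : ι} (h1 : v.1.1 ≠ i) (h2 : v.1.2 ≠ i) (h3 : v.1.1 ≠ τ i)
    (h4 : v.1.2 ≠ τ i) : fr v (T (K := K) τ i) := by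
  rcases lt_trichotomy i (τ i) with h | h | h
  · rw [T_lt h]; exact fr_add (fr_t_off h1 h2) (fr_t_off h3 h4)
  · rw [T_fix h.symm]; exact fr_t_off h1 h2
  · rw [T_gt h]; exact fr_zero

lemma T_pivot (hτ : Function.Involutive τ) {j k : ι} (hj : j ≤ τ j) (h1 : k ≠ j) (h2 : k ≠ τ j) :
    ∃ rest : MvPolynomial (Vr ι) K, T τ j = w (τ j) k (τ j) + rest ∧
      ∀ b, fr ((τ j, k), b) rest ∧ fr ((k, τ j), b) rest := by
  rcases hj.lt_or_eq with h | h
  · obtain ⟨t', e, f1, f2, _⟩ := t_split (K := K) (τ := τ) (j := τ j) (k := k) h2 (by rw [hτ]; exact h1)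
    refine ⟨t' + t τ j, by rw [T_lt h, e]; ring, fun b => ⟨fr_add (f1 b) ?_, fr_add (f2 b) ?_⟩⟩
    · exact fr_t_off (v := ((τ j, k), b)) h.ne' h1
    · exact fr_t_off (v := ((k, τ j), b)) h1 h.ne'
  · obtain ⟨t', e, f1, f2, _⟩ := t_split (K := K) (τ := τ) (j := j) (k := k) h1 h2
    refine ⟨t', ?_, fun b => ?_⟩
    · rw [T_fix h.symm, e, ← h]
    · rw [← h]; exact ⟨f1 b, f2 b⟩

/-- freeness of the traces of the other blocks -/
lemma fr_T_rep (hτ : Function.Involutive τ) {i j k : ι} (hj : j ≤ τ j) (hk : k ≤ τ k)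
    (hij : i ≠ j) (hik : i ≠ k) {v : Vr ι} (hv1 : v.1.1 = j ∨ v.1.1 = τ j ∨ v.1.1 = k ∨ v.1.1 = τ k)
    (hv2 : v.1.2 = j ∨ v.1.2 = τ j ∨ v.1.2 = k ∨ v.1.2 = τ k) : fr v (T (K := K) τ i) := by
  rcases lt_or_ge (τ i) i with h | h
  · rw [T_gt h]; exact fr_zero
  · obtain ⟨a1, a2, a3⟩ := rep_ne hτ h hj hij
    obtain ⟨b1, b2, b3⟩ := rep_ne hτ h hk hik
    refine fr_T_off ?_ ?_ ?_ ?_
    · rcases hv1 with h' | h' | h' | h' <;> rw [h'] <;> first | exact hij.symm | exact hik.symm | assumption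
    · rcases hv2 with h' | h' | h' | h' <;> rw [h'] <;> first | exact hij.symm | exact hik.symm | assumption
    · rcases hv1 with h' | h' | h' | h' <;> rw [h'] <;> assumption
    · rcases hv2 with h' | h' | h' | h' <;> rw [h'] <;> assumption

lemma fr_t_rep (hτ : Function.Involutive τ) {i j k : ι} (hi : i < τ i) (hj : j ≤ τ j)
    (hk : k ≤ τ k) (hij : i ≠ j) (hik : i ≠ k) {v : Vr ι}
    (hv1 : v.1.1 = j ∨ v.1.1 = τ j ∨ v.1.1 = k ∨ v.1.1 = τ k)
    (hv2 : v.1.2 = j ∨ v.1.2 = τ j ∨ v.1.2 = k ∨ v.1.2 = τ k) : fr v (t (K := K) τ i) := by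
  obtain ⟨a1, a2, a3⟩ := rep_ne hτ hi.le hj hij
  obtain ⟨b1, b2, b3⟩ := rep_ne hτ hi.le hk hik
  refine fr_t_off ?_ ?_
  · rcases hv1 with h' | h' | h' | h' <;> rw [h'] <;> first | exact hij.symm | exact hik.symm | assumption
  · rcases hv2 with h' | h' | h' | h' <;> rw [h'] <;> first | exact hij.symm | exact hik.symm | assumption

/-- `X0` is prime -/
lemma X0_prime (hτ : Function.Involutive τ) [Nonempty ι] : (X0 K τ).IsPrime := by
  obtain ⟨m⟩ := ‹Nonempty ι›
  obtain ⟨j0, hj0⟩ : ∃ j0, j0 ≤ τ j0 := by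
    rcases le_total m (τ m) with h | h
    · exact ⟨m, h⟩
    · exact ⟨τ m, by rw [hτ]; exact h⟩
  rw [X0_eq hτ j0]
  have key : ∀ V : Finset ι, j0 ∉ V → (sp (T (K := K) τ) V).IsPrime := by
    intro V
    induction V using Finset.induction_on with
    | empty => intro _; unfold sp; rw [Finset.sup_empty]; exact Ideal.isPrime_bot
    | insert j V hjV ih =>
      intro hj0V
      have hjj0 : j ≠ j0 := fun h => hj0V (by rw [h]; exact mem_insert_self _ _)
      have hV := ih (fun h => hj0V (mem_insert_of_mem h))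
      rw [sp_insert, sup_comm]
      rcases lt_or_ge (τ j) j with h | h
      · rw [T_gt h, Ideal.span_singleton_zero, sup_bot_eq]
        exact hV
      · obtain ⟨a1, a2, a3⟩ := rep_ne hτ h hj0 hjj0
        obtain ⟨rest, e, f⟩ := T_pivot (K := K) hτ (k := τ j0) h a2 a3
        refine prime_pivot (p := τ j) (k := τ j0) a3.symm hV (fun b => ⟨?_, ?_⟩) f e
        · refine Fr_sp (fun i hi => fr_T_rep hτ (j := j) (k := j0) h hj0 ?_ ?_ (by simp) (by simp))
          · rintro rfl; exact hjV hi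
          · rintro rfl; exact hj0V (mem_insert_of_mem hi)
        · refine Fr_sp (fun i hi => fr_T_rep hτ (j := j) (k := j0) h hj0 ?_ ?_ (by simp) (by simp))
          · rintro rfl; exact hjV hi
          · rintro rfl; exact hj0V (mem_insert_of_mem hi)
  exact key _ (by simp)

end Pool.Agent.V11319.Comm
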