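import Pool.Agent.V11319.Comm.Reg

/-! The three equations of a block. -/

set_option autoImplicit false
set_option linter.unusedSectionVars false

open MvPolynomial

namespace Pool.Agent.V11319.Comm

variable {σ : Type*} [DecidableEq σ] {K : Type*} [Field K]

lemma block_reg {Z : Ideal (MvPolynomial σ K)} {a1 a2 b1 b2 c1 c2 : σ}
    (hd : [a1, a2, b1, b2, c1, c2].Nodup) {t r s : MvPolynomial σ K}
    (hv : ∀ v ∈ [a1, a2, b1, b2, c1, c2], Fr v Z ∧ fr v t ∧ fr v r ∧ fr v s)
    (hreg : Reg Z t) {G1 G2 G3 : MvPolynomial σ K}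
    (hG1 : G1 = X b1 * X c2 - X b2 * X c1 + t) (hG2 : G2 = X a1 * X b2 - X a2 * X b1 + r)
    (hG3 : G3 = X a1 * X c2 - X a2 * X c1 + s) :
    Reg Z G1 ∧ Reg (Z ⊔ Ideal.span {G1}) G2 ∧
      Reg (Z ⊔ Ideal.span {G1} ⊔ Ideal.span {G2}) G3 := by
  simp only [List.nodup_cons, List.mem_cons, not_or, List.not_mem_nil, not_false_eq_true,
    List.nodup_nil, and_true] at hd
  obtain ⟨⟨n1, n2, n3, n4, n5⟩, ⟨n6, n7, n8, n9⟩, ⟨n10, n11, n12⟩, ⟨n13, n14⟩, n15⟩ := hd
  obtain ⟨Za1, ta1, ra1, sa1⟩ := hv a1 (by simp)
  obtain ⟨Za2, ta2, ra2, sa2⟩ := hv a2 (by simp)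
  obtain ⟨Zb1, tb1, rb1, sb1⟩ := hv b1 (by simp)
  obtain ⟨Zb2, tb2, rb2, sb2⟩ := hv b2 (by simp)
  obtain ⟨Zc1, tc1, rc1, sc1⟩ := hv c1 (by simp)
  obtain ⟨Zc2, tc2, rc2, sc2⟩ := hv c2 (by simp)
  have G1a1 : fr a1 G1 := by rw [hG1]; (repeat' first | assumption | apply Fr_sup | apply Fr_singleton | apply fr_sub | apply fr_add | apply fr_mul | apply fr_neg | exact fr_zero | exact fr_one | (apply fr_X; first | assumption | (apply Ne.symm; assumption)))
  have G1a2 : fr a2 G1 := by rw [hG1]; (repeat' first | assumption | apply Fr_sup | apply Fr_singleton | apply fr_sub | apply fr_add | apply fr_mul | apply fr_neg | exact fr_zero | exact fr_one | (apply fr_X; first | assumption | (apply Ne.symm; assumption)))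
  -- (1)
  have R1 : Reg Z G1 := reg_lin (x := c2) (a := X b1) (b := -X b2 * X c1 + t) Zc2 (by (repeat' first | assumption | apply Fr_sup | apply Fr_singleton | apply fr_sub | apply fr_add | apply fr_mul | apply fr_neg | exact fr_zero | exact fr_one | (apply fr_X; first | assumption | (apply Ne.symm; assumption))))
    (by (repeat' first | assumption | apply Fr_sup | apply Fr_singleton | apply fr_sub | apply fr_add | apply fr_mul | apply fr_neg | exact fr_zero | exact fr_one | (apply fr_X; first | assumption | (apply Ne.symm; assumption)))) (reg_var Zb1) (by rw [hG1]; ring)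
  -- (2)
  have R2a : Reg (Z ⊔ Ideal.span {X b1}) (-X b2 * X c1 + t) :=
    reg_lin (x := c1) (a := -X b2) (b := t) (by (repeat' first | assumption | apply Fr_sup | apply Fr_singleton | apply fr_sub | apply fr_add | apply fr_mul | apply fr_neg | exact fr_zero | exact fr_one | (apply fr_X; first | assumption | (apply Ne.symm; assumption)))) (by (repeat' first | assumption | apply Fr_sup | apply Fr_singleton | apply fr_sub | apply fr_add | apply fr_mul | apply fr_neg | exact fr_zero | exact fr_one | (apply fr_X; first | assumption | (apply Ne.symm; assumption)))) (by (repeat' first | assumption | apply Fr_sup | apply Fr_singleton | apply fr_sub | apply fr_add | apply fr_mul | apply fr_neg | exact fr_zero | exact fr_one | (apply fr_X; first | assumption | (apply Ne.symm; assumption))))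
      (reg_neg (reg_var (by (repeat' first | assumption | apply Fr_sup | apply Fr_singleton | apply fr_sub | apply fr_add | apply fr_mul | apply fr_neg | exact fr_zero | exact fr_one | (apply fr_X; first | assumption | (apply Ne.symm; assumption)))))) rfl
  have R2 : Reg (Z ⊔ Ideal.span {G1}) (X b1) := by
    refine reg_switch (reg_var Zb1) (reg_congr R2a ?_)
    have : -X b2 * X c1 + t - G1 = X b1 * (-X c2) := by rw [hG1]; ring
    rw [this]
    exact Ideal.mul_mem_right _ _ (mem_self _)
  -- (3)
  have R3 : Reg (Z ⊔ Ideal.span {G1}) G2 :=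
    reg_lin (x := a2) (a := -X b1) (b := X a1 * X b2 + r) (by (repeat' first | assumption | apply Fr_sup | apply Fr_singleton | apply fr_sub | apply fr_add | apply fr_mul | apply fr_neg | exact fr_zero | exact fr_one | (apply fr_X; first | assumption | (apply Ne.symm; assumption)))) (by (repeat' first | assumption | apply Fr_sup | apply Fr_singleton | apply fr_sub | apply fr_add | apply fr_mul | apply fr_neg | exact fr_zero | exact fr_one | (apply fr_X; first | assumption | (apply Ne.symm; assumption)))) (by (repeat' first | assumption | apply Fr_sup | apply Fr_singleton | apply fr_sub | apply fr_add | apply fr_mul | apply fr_neg | exact fr_zero | exact fr_one | (apply fr_X; first | assumption | (apply Ne.symm; assumption))))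
      (reg_neg R2) (by rw [hG2]; ring)
  -- (4a)
  have Rt : Reg (Z ⊔ Ideal.span {G1}) t := by
    refine reg_switch hreg (reg_lin (x := c2) (a := X b1) (b := -X b2 * X c1 + t) (by (repeat' first | assumption | apply Fr_sup | apply Fr_singleton | apply fr_sub | apply fr_add | apply fr_mul | apply fr_neg | exact fr_zero | exact fr_one | (apply fr_X; first | assumption | (apply Ne.symm; assumption))))
      (by (repeat' first | assumption | apply Fr_sup | apply Fr_singleton | apply fr_sub | apply fr_add | apply fr_mul | apply fr_neg | exact fr_zero | exact fr_one | (apply fr_X; first | assumption | (apply Ne.symm; assumption)))) (by (repeat' first | assumption | apply Fr_sup | apply Fr_singleton | apply fr_sub | apply fr_add | apply fr_mul | apply fr_neg | exact fr_zero | exact fr_one | (apply fr_X; first | assumption | (apply Ne.symm; assumption)))) (reg_var (by (repeat' first | assumption | apply Fr_sup | apply Fr_singleton | apply fr_sub | apply fr_add | apply fr_mul | apply fr_neg | exact fr_zero | exact fr_one | (apply fr_X;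 first | assumption | (apply Ne.symm; assumption))))) (by rw [hG1]; ring))
  set E : MvPolynomial σ K := -X c1 * r - X a1 * t + X b1 * s with hE
  have RE1 : Reg (Z ⊔ Ideal.span {G1}) E :=
    reg_lin (x := a1) (a := -t) (b := -X c1 * r + X b1 * s) (by (repeat' first | assumption | apply Fr_sup | apply Fr_singleton | apply fr_sub | apply fr_add | apply fr_mul | apply fr_neg | exact fr_zero | exact fr_one | (apply fr_X; first | assumption | (apply Ne.symm; assumption)))) (by (repeat' first | assumption | apply Fr_sup | apply Fr_singleton | apply fr_sub | apply fr_add | apply fr_mul | apply fr_neg | exact fr_zero | exact fr_one | (apply fr_X; first | assumption | (apply Ne.symm; assumption)))) (by (repeat' first | assumption | apply Fr_sup | apply Fr_singleton | apply fr_sub | apply fr_add | apply fr_mul | apply fr_neg | exact fr_zero | exact fr_one | (apply fr_X; first | assumption | (apply Ne.symm; assumption))))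
      (reg_neg Rt) (by rw [hE]; ring)
  have Ea2 : fr a2 E := by rw [hE]; (repeat' first | assumption | apply Fr_sup | apply Fr_singleton | apply fr_sub | apply fr_add | apply fr_mul | apply fr_neg | exact fr_zero | exact fr_one | (apply fr_X; first | assumption | (apply Ne.symm; assumption)))
  -- (4b)
  have Rt2 : Reg (Z ⊔ Ideal.span {X b1}) t := reg_switch hreg (reg_var (by (repeat' first | assumption | apply Fr_sup | apply Fr_singleton | apply fr_sub | apply fr_add | apply fr_mul | apply fr_neg | exact fr_zero | exact fr_one | (apply fr_X; first | assumption | (apply Ne.symm; assumption)))))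
  have Rt3 : Reg (Z ⊔ Ideal.span {G1} ⊔ Ideal.span {X b1}) t := by
    have e : Z ⊔ Ideal.span {G1} ⊔ Ideal.span {X b1}
        = Z ⊔ Ideal.span {X b1} ⊔ Ideal.span {-X b2 * X c1 + t} := by
      rw [sup_right_comm]
      apply sup_span_congr
      have : G1 - (-X b2 * X c1 + t) = X b1 * X c2 := by rw [hG1]; ring
      rw [this]
      exact Ideal.mul_mem_right _ _ (mem_self _)
    rw [e]
    refine reg_switch Rt2 ?_
    have h1 : Reg (Z ⊔ Ideal.span {X b1} ⊔ Ideal.span {t}) (-X b2 * X c1) :=
      reg_lin (x := c1) (a := -X b2) (b := 0) (by (repeat' first | assumption | apply Fr_sup | apply Fr_singleton | apply fr_sub | apply fr_add | apply fr_mul | apply fr_neg | exact fr_zero | exact fr_one | (apply fr_X; first | assumption | (apply Ne.symm; assumption)))) (by (repeat' first | assumption | apply Fr_sup | apply Fr_singleton | apply fr_sub | apply fr_add | apply fr_mul | apply fr_neg | exact fr_zero | exact fr_one | (apply fr_X; first | assumption | (apply Ne.symm; assumption)))) (by (repeat' first | assumption | apply Fr_sup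 | apply Fr_singleton | apply fr_sub | apply fr_add | apply fr_mul | apply fr_neg | exact fr_zero | exact fr_one | (apply fr_X; first | assumption | (apply Ne.symm; assumption))))
        (reg_neg (reg_var (by (repeat' first | assumption | apply Fr_sup | apply Fr_singleton | apply fr_sub | apply fr_add | apply fr_mul | apply fr_neg | exact fr_zero | exact fr_one | (apply fr_X; first | assumption | (apply Ne.symm; assumption)))))) (by ring)
    refine reg_congr h1 ?_
    have : -X b2 * X c1 - (-X b2 * X c1 + t) = -t := by ring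
    rw [this]
    exact (Ideal.neg_mem_iff _).2 (mem_self _)
  have R4 : Reg (Z ⊔ Ideal.span {G1} ⊔ Ideal.span {E}) (X b1) := by
    refine reg_switch R2 ?_
    have h1 : Reg (Z ⊔ Ideal.span {G1} ⊔ Ideal.span {X b1}) (-X c1 * r - X a1 * t) :=
      reg_lin (x := a1) (a := -t) (b := -X c1 * r) (by (repeat' first | assumption | apply Fr_sup | apply Fr_singleton | apply fr_sub | apply fr_add | apply fr_mul | apply fr_neg | exact fr_zero | exact fr_one | (apply fr_X; first | assumption | (apply Ne.symm; assumption)))) (by (repeat' first | assumption | apply Fr_sup | apply Fr_singleton | apply fr_sub | apply fr_add | apply fr_mul | apply fr_neg | exact fr_zero | exact fr_one | (apply fr_X; first | assumption | (apply Ne.symm; assumption)))) (by (repeat' first | assumption | apply Fr_sup | apply Fr_singleton | apply fr_sub | apply fr_add | apply fr_mul | apply fr_neg | exact fr_zero | exact fr_one | (apply fr_X; first | assumption | (apply Ne.symm; assumption))))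
        (reg_neg Rt3) (by ring)
    refine reg_congr h1 ?_
    have : -X c1 * r - X a1 * t - E = X b1 * (-s) := by rw [hE]; ring
    rw [this]
    exact Ideal.mul_mem_right _ _ (mem_self _)
  have R5 : Reg (Z ⊔ Ideal.span {G1} ⊔ Ideal.span {E}) G2 :=
    reg_lin (x := a2) (a := -X b1) (b := X a1 * X b2 + r) (by (repeat' first | assumption | apply Fr_sup | apply Fr_singleton | apply fr_sub | apply fr_add | apply fr_mul | apply fr_neg | exact fr_zero | exact fr_one | (apply fr_X; first | assumption | (apply Ne.symm; assumption)))) (by (repeat' first | assumption | apply Fr_sup | apply Fr_singleton | apply fr_sub | apply fr_add | apply fr_mul | apply fr_neg | exact fr_zero | exact fr_one | (apply fr_X; first | assumption | (apply Ne.symm; assumption)))) (by (repeat' first | assumption | apply Fr_sup | apply Fr_singleton | apply fr_sub | apply fr_add | apply fr_mul | apply fr_neg | exact fr_zero | exact fr_one | (apply fr_X; first | assumption | (apply Ne.symm; assumption))))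
      (reg_neg R4) (by rw [hG2]; ring)
  have RE : Reg (Z ⊔ Ideal.span {G1} ⊔ Ideal.span {G2}) E := reg_switch RE1 R5
  refine ⟨R1, R3, fun f hf => RE f ?_⟩
  have e : E * f = X b1 * (G3 * f) - (X a1 * f) * G1 - (X c1 * f) * G2 := by
    rw [hE, hG1, hG2, hG3]; ring
  rw [e]
  refine Ideal.sub_mem _ (Ideal.sub_mem _ (Ideal.mul_mem_left _ _ hf)
    (Ideal.mul_mem_left _ _ (Ideal.mem_sup_left (mem_self _)))) (Ideal.mul_mem_left _ _ (mem_self _))

lemma prime_two {x y : σ} (hxy : x ≠ y) {I : Ideal (MvPolynomial σ K)} (hI : I.IsPrime)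
    (hIx : Fr x I) (hIy : Fr y I) {β1 β2 γ1 γ2 t r s : MvPolynomial σ K}
    (hx : fr x β1 ∧ fr x β2 ∧ fr x γ1 ∧ fr x γ2 ∧ fr x t ∧ fr x r ∧ fr x s)
    (hy : fr y β1 ∧ fr y β2 ∧ fr y γ1 ∧ fr y γ2 ∧ fr y t ∧ fr y r ∧ fr y s)
    (hrel : β1 * γ2 - β2 * γ1 + t ∈ I) (ht : t ∉ I) {g2 g3 : MvPolynomial σ K}
    (hg2 : g2 = X x * β2 - X y * β1 + r) (hg3 : g3 = X x * γ2 - X y * γ1 + s)
    (hreg : Reg (I ⊔ Ideal.span {g2} ⊔ Ideal.span {g3}) t) :
    (I ⊔ Ideal.span {g2} ⊔ Ideal.span {g3}).IsPrime := by
  obtain ⟨x1, x2, x3, x4, x5, x6, x7⟩ := hx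
  obtain ⟨y1, y2, y3, y4, y5, y6, y7⟩ := hy
  set W := I ⊔ Ideal.span {g2} ⊔ Ideal.span {g3} with hW
  set u1 := r * γ1 - s * β1 with hu1
  set u2 := r * γ2 - s * β2 with hu2
  have hIW : ∀ f ∈ I, f ∈ W := fun f hf => Ideal.mem_sup_left (Ideal.mem_sup_left hf)
  have hg2W : g2 ∈ W := Ideal.mem_sup_left (mem_self _)
  have hg3W : g3 ∈ W := mem_self _
  have e1 : t * X x + u1 ∈ W := by
    have : t * X x + u1 = γ1 * g2 - β1 * g3 + X x * (β1 * γ2 - β2 * γ1 + t) := by
      rw [hg2, hg3, hu1]; ring
    rw [this]
    exact Ideal.add_mem _ (Ideal.sub_mem _ (Ideal.mul_mem_left _ _ hg2W)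
      (Ideal.mul_mem_left _ _ hg3W)) (Ideal.mul_mem_left _ _ (hIW _ hrel))
  have e2 : t * X y + u2 ∈ W := by
    have : t * X y + u2 = γ2 * g2 - β2 * g3 + X y * (β1 * γ2 - β2 * γ1 + t) := by
      rw [hg2, hg3, hu2]; ring
    rw [this]
    exact Ideal.add_mem _ (Ideal.sub_mem _ (Ideal.mul_mem_left _ _ hg2W)
      (Ideal.mul_mem_left _ _ hg3W)) (Ideal.mul_mem_left _ _ (hIW _ hrel))
  have u1x : fr x u1 := by rw [hu1]; (repeat' first | assumption | apply Fr_sup | apply Fr_singleton | apply fr_sub | apply fr_add | apply fr_mul | apply fr_neg | exact fr_zero | exact fr_one | (apply fr_X; first | assumption | (apply Ne.symm; assumption)))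
  have u1y : fr y u1 := by rw [hu1]; (repeat' first | assumption | apply Fr_sup | apply Fr_singleton | apply fr_sub | apply fr_add | apply fr_mul | apply fr_neg | exact fr_zero | exact fr_one | (apply fr_X; first | assumption | (apply Ne.symm; assumption)))
  have u2y : fr y u2 := by rw [hu2]; (repeat' first | assumption | apply Fr_sup | apply Fr_singleton | apply fr_sub | apply fr_add | apply fr_mul | apply fr_neg | exact fr_zero | exact fr_one | (apply fr_X; first | assumption | (apply Ne.symm; assumption)))
  obtain ⟨Q1, hQ1, htQ1, hQ1m⟩ := exists_Q hI hIx x5 u1x ht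
  have hJ : Fr y (I ⊔ Ideal.span {t * X x + u1}) := by (repeat' first | assumption | apply Fr_sup | apply Fr_singleton | apply fr_sub | apply fr_add | apply fr_mul | apply fr_neg | exact fr_zero | exact fr_one | (apply fr_X; first | assumption | (apply Ne.symm; assumption)))
  have hQ1y : Fr y Q1 := by
    apply Fr_mk
    intro f hf k
    obtain ⟨M, hM⟩ := (hQ1m f).1 hf
    rw [hQ1m]
    refine ⟨M, ?_⟩
    have h1 := Fr_mem hJ hM k
    rw [map_mul, map_pow, fr_eq y5, ← map_pow, Polynomial.coeff_C_mul] at h1
    exact h1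
  obtain ⟨Q2, hQ2, htQ2, hQ2m⟩ := exists_Q hQ1 hQ1y y5 u2y htQ1
  have hI1 : ∀ f ∈ I, f ∈ Q1 := fun f hf => (hQ1m f).2 ⟨0, by
    rw [pow_zero, one_mul]; exact Ideal.mem_sup_left hf⟩
  have h12 : ∀ f ∈ Q1, f ∈ Q2 := fun f hf => (hQ2m f).2 ⟨0, by
    rw [pow_zero, one_mul]; exact Ideal.mem_sup_left hf⟩
  have m1 : t * X x + u1 ∈ Q2 := h12 _ ((hQ1m _).2 ⟨0, by
    rw [pow_zero, one_mul]; exact mem_self _⟩)
  have m2 : t * X y + u2 ∈ Q2 := (hQ2m _).2 ⟨0, by
    rw [pow_zero, one_mul]; exact mem_self _⟩
  have mrel : β1 * γ2 - β2 * γ1 + t ∈ Q2 := h12 _ (hI1 _ hrel)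
  have g2Q : g2 ∈ Q2 := by
    have : t * g2 ∈ Q2 := by
      have : t * g2 = β2 * (t * X x + u1) - β1 * (t * X y + u2)
          + r * (β1 * γ2 - β2 * γ1 + t) := by
        rw [hg2, hu1, hu2]; ring
      rw [this]
      exact Ideal.add_mem _ (Ideal.sub_mem _ (Ideal.mul_mem_left _ _ m1)
        (Ideal.mul_mem_left _ _ m2)) (Ideal.mul_mem_left _ _ mrel)
    exact (hQ2.mem_or_mem this).resolve_left htQ2
  have g3Q : g3 ∈ Q2 := by
    have : t * g3 ∈ Q2 := by
      have : t * g3 = γ2 * (t * X x + u1) - γ1 * (t * X y + u2)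
          + s * (β1 * γ2 - β2 * γ1 + t) := by
        rw [hg3, hu1, hu2]; ring
      rw [this]
      exact Ideal.add_mem _ (Ideal.sub_mem _ (Ideal.mul_mem_left _ _ m1)
        (Ideal.mul_mem_left _ _ m2)) (Ideal.mul_mem_left _ _ mrel)
    exact (hQ2.mem_or_mem this).resolve_left htQ2
  have hWQ : W = Q2 := by
    apply le_antisymm
    · refine sup_le (sup_le (fun f hf => h12 _ (hI1 _ hf)) ?_) ?_
      · rw [Ideal.span_singleton_le_iff_mem]; exact g2Q
      · rw [Ideal.span_singleton_le_iff_mem]; exact g3Q
    · intro f hf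
      obtain ⟨M, hM⟩ := (hQ2m f).1 hf
      obtain ⟨q, hq, j, hj, hqj⟩ := Submodule.mem_sup.1 hM
      obtain ⟨h, rfl⟩ := Ideal.mem_span_singleton'.1 hj
      obtain ⟨M', hM'⟩ := (hQ1m q).1 hq
      have h1 : t ^ M' * q ∈ W := by
        have hle : I ⊔ Ideal.span {t * X x + u1} ≤ W := by
          refine sup_le (fun f hf => hIW f hf) ?_
          rw [Ideal.span_singleton_le_iff_mem]; exact e1
        exact hle hM'
      have h2 : t ^ M' * (t ^ M * f) ∈ W := by
        rw [← hqj, mul_add]
        refine Ideal.add_mem _ h1 ?_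
        rw [← mul_assoc]
        exact Ideal.mul_mem_left _ _ e2
      exact reg_pow hreg M f (reg_pow hreg M' _ h2)
  rw [hWQ]
  exact hQ2

end Pool.Agent.V11319.Comm
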