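import Pool.Agent.V11319.Comm.Base

/-! The ideal of the diagonal and anti-diagonal entries is prime (in normal form). -/

set_option autoImplicit false
set_option linter.unusedSectionVars false

open MvPolynomial Finset

namespace Pool.Agent.V11319.Comm

variable {ι : Type*} [Fintype ι] [LinearOrder ι] {K : Type*} [Field K] {τ : ι → ι}

lemma sp_empty {f : ι → MvPolynomial (Vr ι) K} : sp f ∅ = ⊥ := by
  unfold sp; rw [Finset.sup_empty]

lemma P1 (hτ : Function.Involutive τ) (h3 : ∀ i, ∃ k, k ≠ i ∧ k ≠ τ i) {c : ι} (hc : c < τ c)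
    {U : Finset ι} (hU : ∀ u ∈ U, u < τ u) (hcU : c ∉ U) :
    Reg (X0 K τ ⊔ sp (t (K := K) τ) U) (t τ c) := by
  have key : ∀ V : Finset ι, c ∉ V →
      Reg (sp (T (K := K) τ) V ⊔ sp (t (K := K) τ) (U ∩ V)) (t τ c) := by
    intro V
    induction V using Finset.induction_on with
    | empty =>
      intro _
      rw [Finset.inter_empty, sp_empty, sp_empty, sup_bot_eq]
      obtain ⟨k, hk1, hk2⟩ := h3 c
      obtain ⟨t', e, f1, f2, _⟩ := t_split (K := K) (τ := τ) hk1 hk2
      exact reg_pivot hk1.symm (fun b => ⟨Fr_bot, Fr_bot⟩) (fun b => ⟨f1 b, f2 b⟩) e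
    | insert j V hjV ih =>
      intro hcV
      have hcj : c ≠ j := fun h => hcV (by rw [h]; exact mem_insert_self _ _)
      have ih' := ih (fun h => hcV (mem_insert_of_mem h))
      set I := sp (T (K := K) τ) V ⊔ sp (t (K := K) τ) (U ∩ V) with hI
      rcases lt_or_ge (τ j) j with h | h
      · have hjU : j ∉ U := fun hj => lt_asymm (hU j hj) h
        rw [sp_insert, T_gt h, Ideal.span_singleton_zero, bot_sup_eq,
          Finset.inter_insert_of_notMem hjU]
        exact ih'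
      · obtain ⟨a1, a2, a3⟩ := rep_ne hτ hc.le h hcj
        -- a1 : j ≠ τ c, a2 : τ j ≠ c, a3 : τ j ≠ τ c
        have hFI : ∀ v : Vr ι, (v.1.1 = j ∨ v.1.1 = τ j ∨ v.1.1 = c ∨ v.1.1 = τ c) →
            (v.1.2 = j ∨ v.1.2 = τ j ∨ v.1.2 = c ∨ v.1.2 = τ c) → Fr v I := by
          intro v hv1 hv2
          refine Fr_sup (Fr_sp (fun i hi => ?_)) (Fr_sp (fun i hi => ?_))
          · refine fr_T_rep hτ h hc.le ?_ ?_ hv1 hv2
            · rintro rfl; exact hjV hi
            · rintro rfl; exact hcV (mem_insert_of_mem hi)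
          · rw [mem_inter] at hi
            refine fr_t_rep hτ (hU i hi.1) h hc.le ?_ ?_ hv1 hv2
            · rintro rfl; exact hjV hi.2
            · rintro rfl; exact hcV (mem_insert_of_mem hi.2)
        obtain ⟨rest, e, f⟩ := T_pivot (K := K) hτ (k := τ c) h a1.symm a3.symm
        by_cases hjU : j ∈ U
        · have hjlt := hU j hjU
          obtain ⟨t', e', f1, f2, _⟩ := t_split (K := K) (τ := τ) (j := j) (k := τ c) a1.symm a3.symm
          have s1 : Reg (I ⊔ Ideal.span {t τ c}) (t τ j) := by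
            refine reg_pivot (p := j) (k := τ c) a1 (fun b => ⟨?_, ?_⟩) (fun b => ⟨f1 b, f2 b⟩) e'
            · exact Fr_sup (hFI _ (by simp) (by simp))
                (Fr_singleton (fr_t_off (v := ((j, τ c), b)) hcj.symm hc.ne'))
            · exact Fr_sup (hFI _ (by simp) (by simp))
                (Fr_singleton (fr_t_off (v := ((τ c, j), b)) hc.ne' hcj.symm))
          have s2 := reg_switch ih' s1
          have s3 : Reg (I ⊔ Ideal.span {t τ j} ⊔ Ideal.span {t τ c}) (T τ j) := by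
            refine reg_pivot (p := τ j) (k := τ c) a3 (fun b => ⟨?_, ?_⟩) f e
            · refine Fr_sup (Fr_sup (hFI _ (by simp) (by simp)) (Fr_singleton ?_))
                (Fr_singleton ?_)
              · exact fr_t_off (v := ((τ j, τ c), b)) hjlt.ne' a1.symm
              · exact fr_t_off (v := ((τ j, τ c), b)) a2 hc.ne'
            · refine Fr_sup (Fr_sup (hFI _ (by simp) (by simp)) (Fr_singleton ?_))
                (Fr_singleton ?_)
              · exact fr_t_off (v := ((τ c, τ j), b)) a1.symm hjlt.ne'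
              · exact fr_t_off (v := ((τ c, τ j), b)) hc.ne' a2
          have s4 := reg_switch s2 s3
          have e5 : sp (T (K := K) τ) (insert j V) ⊔ sp (t (K := K) τ) (U ∩ insert j V)
              = I ⊔ Ideal.span {t τ j} ⊔ Ideal.span {T τ j} := by
            rw [sp_insert, Finset.inter_insert_of_mem hjU, sp_insert, hI]
            ac_rfl
          rw [e5]
          exact s4
        · have s3 : Reg (I ⊔ Ideal.span {t τ c}) (T τ j) := by
            refine reg_pivot (p := τ j) (k := τ c) a3 (fun b => ⟨?_, ?_⟩) f e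
            · refine Fr_sup (hFI _ (by simp) (by simp)) (Fr_singleton ?_)
              exact fr_t_off (v := ((τ j, τ c), b)) a2 hc.ne'
            · refine Fr_sup (hFI _ (by simp) (by simp)) (Fr_singleton ?_)
              exact fr_t_off (v := ((τ c, τ j), b)) hc.ne' a2
          have s4 := reg_switch ih' s3
          have e5 : sp (T (K := K) τ) (insert j V) ⊔ sp (t (K := K) τ) (U ∩ insert j V)
              = I ⊔ Ideal.span {T τ j} := by
            rw [sp_insert, Finset.inter_insert_of_notMem hjU, hI]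
            ac_rfl
          rw [e5]
          exact s4
  have := key (univ.erase c) (by simp)
  rw [X0_eq hτ c]
  have e : U ∩ univ.erase c = U := by
    ext i
    simp only [mem_inter, mem_erase, mem_univ, and_true, and_iff_left_iff_imp]
    rintro hi rfl
    exact hcU hi
  rwa [e] at this

lemma r_split {a k : ι} (ha : a ≠ τ a) (h1 : k ≠ a) (h2 : k ≠ τ a) :
    ∃ r' : MvPolynomial (Vr ι) K, r τ a = w a k (τ a) + r' ∧
      ∀ b, fr ((a, k), b) r' ∧ fr ((k, τ a), b) r' ∧ fr ((k, a), b) r' ∧ fr ((τ a, k), b) r' := by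
  refine ⟨∑ k' ∈ (off τ a).erase k, w a k' (τ a), ?_, fun b => ⟨?_, ?_, ?_, ?_⟩⟩
  · exact (Finset.add_sum_erase _ (fun k => w a k (τ a)) ((mem_off τ).2 ⟨h1, h2⟩)).symm
  · refine fr_sum _ (fun k' hk' => ?_)
    rw [mem_erase, mem_off] at hk'
    refine fr_w (fun h => hk'.1 (Prod.ext_iff.1 h).2.symm)
      (fun h => hk'.2.1 (Prod.ext_iff.1 h).1.symm)
  · refine fr_sum _ (fun k' hk' => ?_)
    rw [mem_erase, mem_off] at hk'
    refine fr_w (fun h => h1 (Prod.ext_iff.1 h).1)
      (fun h => hk'.1 (Prod.ext_iff.1 h).1.symm)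
  · refine fr_sum _ (fun k' hk' => ?_)
    rw [mem_erase, mem_off] at hk'
    refine fr_w (fun h => h1 (Prod.ext_iff.1 h).1)
      (fun h => ha (Prod.ext_iff.1 h).2)
  · refine fr_sum _ (fun k' hk' => ?_)
    rw [mem_erase, mem_off] at hk'
    refine fr_w (fun h => ha (Prod.ext_iff.1 h).1.symm)
      (fun h => hk'.2.2 (Prod.ext_iff.1 h).1.symm)

lemma P2 (hτ : Function.Involutive τ) (h3 : ∀ i, ∃ k, k ≠ i ∧ k ≠ τ i) {a : ι} (ha : a < τ a)
    {U : Finset ι} (hU : ∀ u ∈ U, u < τ u) (haU : a ∉ U) :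
    Reg (X0 K τ ⊔ Ideal.span {t τ a} ⊔ sp (t (K := K) τ) U) (r τ a) := by
  obtain ⟨k, hk1, hk2, hk3⟩ : ∃ k, k ≠ a ∧ k ≠ τ a ∧ τ k ≤ k := by
    obtain ⟨k, h1, h2⟩ := h3 a
    rcases le_total (τ k) k with h | h
    · exact ⟨k, h1, h2, h⟩
    · exact ⟨τ k, fun h' => h2 (by rw [← h', hτ]), fun h' => h1 (hτ.injective h'), by rw [hτ]; exact h⟩
  have hrepk : τ k ≤ τ (τ k) := by rw [hτ]; exact hk3
  have hak : a ≠ τ k := fun h => hk2 (by rw [h, hτ])
  set Y := sp (T (K := K) τ) ((univ.erase (τ k)).erase a) ⊔ sp (t (K := K) τ) U with hY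
  have hideal : X0 K τ ⊔ Ideal.span {t τ a} ⊔ sp (t (K := K) τ) U
      = Y ⊔ Ideal.span {t τ a} ⊔ Ideal.span {T τ a} := by
    rw [X0_eq hτ (τ k)]
    have : univ.erase (τ k) = insert a ((univ.erase (τ k)).erase a) := by
      rw [Finset.insert_erase]
      exact mem_erase.2 ⟨hak, mem_univ _⟩
    rw [this, sp_insert, hY]
    ac_rfl
  rw [hideal]
  have hFY : ∀ v : Vr ι, (v.1.1 = a ∨ v.1.1 = τ a ∨ v.1.1 = τ k ∨ v.1.1 = τ (τ k)) →
      (v.1.2 = a ∨ v.1.2 = τ a ∨ v.1.2 = τ k ∨ v.1.2 = τ (τ k)) →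
      (v.1.1 = a ∨ v.1.1 = τ a ∨ v.1.1 = k) → (v.1.2 = a ∨ v.1.2 = τ a ∨ v.1.2 = k) → Fr v Y := by
    intro v hv1 hv2 hw1 hw2
    refine Fr_sup (Fr_sp (fun i hi => ?_)) (Fr_sp (fun i hi => ?_))
    · rw [mem_erase, mem_erase] at hi
      exact fr_T_rep hτ ha.le hrepk hi.1 hi.2.1 hv1 hv2
    · have hilt := hU i hi
      have hia : i ≠ a := by rintro rfl; exact haU hi
      obtain ⟨b1, b2, b3⟩ := rep_ne hτ hilt.le ha.le hia
      have hik : k ≠ i := by rintro rfl; exact absurd hk3 (not_le.2 hilt)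
      refine fr_t_off ?_ ?_
      · rcases hw1 with h' | h' | h' <;> rw [h'] <;> first | exact hia.symm | assumption
      · rcases hw2 with h' | h' | h' <;> rw [h'] <;> first | exact hia.symm | assumption
  have hkk : τ (τ k) = k := hτ k
  have Fp : ∀ b, Fr ((a, k), b) Y := fun b => hFY _ (by simp) (by simp [hkk]) (by simp) (by simp)
  have Fu : ∀ b, Fr ((k, a), b) Y := fun b => hFY _ (by simp [hkk]) (by simp) (by simp) (by simp)
  have Fv : ∀ b, Fr ((k, τ a), b) Y := fun b => hFY _ (by simp [hkk]) (by simp) (by simp) (by simp)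
  have Fq : ∀ b, Fr ((τ a, k), b) Y := fun b => hFY _ (by simp) (by simp [hkk]) (by simp) (by simp)
  obtain ⟨t', et, ft1, ft2, ft3⟩ := t_split (K := K) (τ := τ) (j := a) (k := k) hk1 hk2
  obtain ⟨t'', et', ft1', ft2', ft3'⟩ := t_split (K := K) (τ := τ) (j := τ a) (k := k) hk2
    (by rw [hτ]; exact hk1)
  obtain ⟨r', er, fr'⟩ := r_split (K := K) (τ := τ) ha.ne hk1 hk2
  -- variables
  set p1 : Vr ι := ((a, k), false)
  set p2 : Vr ι := ((a, k), true)
  set u1 : Vr ι := ((k, a), false)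
  set u2 : Vr ι := ((k, a), true)
  set v1 : Vr ι := ((k, τ a), false)
  set v2 : Vr ι := ((k, τ a), true)
  set q1 : Vr ι := ((τ a, k), false)
  set q2 : Vr ι := ((τ a, k), true)
  have hna : a ≠ τ a := ha.ne
  have n1 : p1 ≠ p2 := by simp [p1, p2]
  have n2 : p1 ≠ u1 := by simp [p1, u1, hk1.symm]
  have n3 : p1 ≠ u2 := by simp [p1, u2]
  have n4 : p1 ≠ v1 := by simp [p1, v1, hk1.symm]
  have n5 : p1 ≠ v2 := by simp [p1, v2]
  have n6 : p1 ≠ q1 := by simp [p1, q1, hna]
  have n7 : p2 ≠ u1 := by simp [p2, u1]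
  have n8 : p2 ≠ u2 := by simp [p2, u2, hk1.symm]
  have n9 : p2 ≠ v1 := by simp [p2, v1]
  have n10 : p2 ≠ v2 := by simp [p2, v2, hk1.symm]
  have n11 : u1 ≠ u2 := by simp [u1, u2]
  have n12 : u1 ≠ v1 := by simp [u1, v1, hna]
  have n13 : u1 ≠ v2 := by simp [u1, v2]
  have n14 : u2 ≠ v1 := by simp [u2, v1]
  have n15 : u2 ≠ v2 := by simp [u2, v2, hna]
  have n16 : v1 ≠ v2 := by simp [v1, v2]
  have n17 : v1 ≠ q1 := by simp [v1, q1, hk2]
  have n18 : v2 ≠ q1 := by simp [v2, q1]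
  have n19 : q2 ≠ q1 := by simp [q2, q1]
  have n20 : p1 ≠ q2 := by simp [p1, q2]
  have n21 : p2 ≠ q1 := by simp [p2, q1]
  have ta : t (K := K) τ a = X p1 * X u2 - X p2 * X u1 + t' := by rw [et]; rfl
  have tta : t (K := K) τ (τ a) = X q1 * X v2 - X q2 * X v1 + t'' := by rw [et']; rfl
  have ra : r (K := K) τ a = X p1 * X v2 - X p2 * X v1 + r' := by rw [er]; rfl
  have tav : ∀ b, fr ((k, τ a), b) (t (K := K) τ a) := fun b =>
    fr_t_off (v := ((k, τ a), b)) hk1 hna.symm
  have taq : ∀ b, fr ((τ a, k), b) (t (K := K) τ a) := fun b =>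
    fr_t_off (v := ((τ a, k), b)) hna.symm hk1
  have t'v : ∀ b, fr ((k, τ a), b) t' := fun b => ft3 ((k, τ a), b) hk1 hna.symm
  have raq1 : fr q1 (r (K := K) τ a) := by
    rw [ra]
    have := (fr' false).2.2.2
    (repeat' first | assumption | apply Fr_sup | apply Fr_singleton | apply fr_sub | apply fr_add | apply fr_mul | apply fr_neg | exact fr_zero | exact fr_one | (apply fr_X; first | assumption | (apply Ne.symm; assumption)))
  -- A
  have A1 : Reg (Y ⊔ Ideal.span {t τ a}) (X p1) := by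
    refine reg_switch (reg_var (Fp false)) ?_
    have h1 : Reg (Y ⊔ Ideal.span {X p1}) (-X p2 * X u1 + t') :=
      reg_lin (x := u1) (a := -X p2) (b := t') (Fr_sup (Fu false) (Fr_singleton (fr_X n2)))
        (fr_neg (fr_X n7)) (ft2 false)
        (reg_neg (reg_var (Fr_sup (Fp true) (Fr_singleton (fr_X n1))))) rfl
    refine reg_congr h1 ?_
    have : -X p2 * X u1 + t' - t τ a = X p1 * (-X u2) := by rw [ta]; ring
    rw [this]
    exact Ideal.mul_mem_right _ _ (mem_self _)
  have A : Reg (Y ⊔ Ideal.span {t τ a}) (r τ a) :=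
    reg_lin (x := v2) (a := X p1) (b := -X p2 * X v1 + r')
      (Fr_sup (Fv true) (Fr_singleton (tav true))) (fr_X n5)
      (fr_add (fr_mul (fr_neg (fr_X n10)) (fr_X n16)) (fr' true).2.1) A1 (by rw [ra]; ring)
  -- B
  have B1 : Reg (Y ⊔ Ideal.span {X v2} ⊔ Ideal.span {t τ a}) (X p2) := by
    refine reg_switch (reg_var (Fr_sup (Fp true) (Fr_singleton (fr_X n10.symm)))) ?_
    have h1 : Reg (Y ⊔ Ideal.span {X v2} ⊔ Ideal.span {X p2}) (X p1 * X u2 + t') :=
      reg_lin (x := u2) (a := X p1) (b := t')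
        (Fr_sup (Fr_sup (Fu true) (Fr_singleton (fr_X n15.symm))) (Fr_singleton (fr_X n8)))
        (fr_X n3) (ft2 true)
        (reg_var (Fr_sup (Fr_sup (Fp false) (Fr_singleton (fr_X n5.symm)))
          (Fr_singleton (fr_X n1.symm)))) rfl
    refine reg_congr h1 ?_
    have : X p1 * X u2 + t' - t τ a = X p2 * (X u1) := by rw [ta]; ring
    rw [this]
    exact Ideal.mul_mem_right _ _ (mem_self _)
  have B2 : Reg (Y ⊔ Ideal.span {t τ a} ⊔ Ideal.span {X v2}) (r τ a) := by
    have h1 : Reg (Y ⊔ Ideal.span {t τ a} ⊔ Ideal.span {X v2}) (-X p2 * X v1 + r') := by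
      refine reg_lin (x := v1) (a := -X p2) (b := r')
        (Fr_sup (Fr_sup (Fv false) (Fr_singleton (tav false))) (Fr_singleton (fr_X n16.symm)))
        (fr_neg (fr_X n9)) (fr' false).2.1 (reg_neg ?_) rfl
      rw [sup_right_comm]
      exact B1
    refine reg_congr h1 ?_
    have : -X p2 * X v1 + r' - r τ a = X v2 * (-X p1) := by rw [ra]; ring
    rw [this]
    exact Ideal.mul_mem_right _ _ (mem_self _)
  have B3 : Reg (Y ⊔ Ideal.span {t τ a} ⊔ Ideal.span {r τ a}) (X v2) :=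
    reg_switch (reg_var (Fr_sup (Fv true) (Fr_singleton (tav true)))) B2
  have B : Reg (Y ⊔ Ideal.span {t τ a} ⊔ Ideal.span {r τ a}) (T τ a) := by
    refine reg_lin (x := q1) (a := X v2) (b := -X q2 * X v1 + t'' + t τ a)
      (Fr_sup (Fr_sup (Fq false) (Fr_singleton (taq false))) (Fr_singleton raq1)) (fr_X n18)
      (fr_add (fr_add (fr_mul (fr_neg (fr_X n19)) (fr_X n17)) (ft1' false)) (taq false)) B3 ?_
    rw [T_lt ha, tta]; ring
  exact reg_switch A B

end Pool.Agent.V11319.Comm
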