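import Pool.Agent.V11319.Comm.Anti

/-! The linear change of variables to the normal form. -/

set_option autoImplicit false
set_option linter.unusedSectionVars false

open MvPolynomial Finset

namespace Pool.Agent.V11319.Comm

variable {ι : Type*} [Fintype ι] [LinearOrder ι] {K : Type*} [Field K] {τ : ι → ι}

variable (K τ) in
noncomputable def thP : MvPolynomial (Vr ι) K →ₐ[K] MvPolynomial (Vr ι) K :=
  aeval (fun v => if v.1.1 = v.1.2 ∧ v.1.1 < τ v.1.1 then X v + X ((τ v.1.1, τ v.1.1), v.2) else X v)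

variable (K τ) in
noncomputable def thM : MvPolynomial (Vr ι) K →ₐ[K] MvPolynomial (Vr ι) K :=
  aeval (fun v => if v.1.1 = v.1.2 ∧ v.1.1 < τ v.1.1 then X v - X ((τ v.1.1, τ v.1.1), v.2) else X v)

lemma thP_off {v : Vr ι} (h : v.1.1 ≠ v.1.2) : thP K τ (X v) = X v := by
  unfold thP; rw [aeval_X, if_neg (fun h' => h h'.1)]

lemma thP_rep {a : ι} (ha : a < τ a) (ε : Bool) :
    thP K τ (X ((a, a), ε)) = X ((a, a), ε) + X ((τ a, τ a), ε) := by
  unfold thP; rw [aeval_X, if_pos ⟨rfl, ha⟩]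

lemma thP_nrep {a : ι} (ha : ¬ a < τ a) (ε : Bool) :
    thP K τ (X ((a, a), ε)) = X ((a, a), ε) := by
  unfold thP; rw [aeval_X, if_neg (fun h' => ha h'.2)]

lemma thM_off {v : Vr ι} (h : v.1.1 ≠ v.1.2) : thM K τ (X v) = X v := by
  unfold thM; rw [aeval_X, if_neg (fun h' => h h'.1)]

lemma thM_rep {a : ι} (ha : a < τ a) (ε : Bool) :
    thM K τ (X ((a, a), ε)) = X ((a, a), ε) - X ((τ a, τ a), ε) := by
  unfold thM; rw [aeval_X, if_pos ⟨rfl, ha⟩]

lemma thM_nrep {a : ι} (ha : ¬ a < τ a) (ε : Bool) :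
    thM K τ (X ((a, a), ε)) = X ((a, a), ε) := by
  unfold thM; rw [aeval_X, if_neg (fun h' => ha h'.2)]

lemma thMP (hτ : Function.Involutive τ) (f : MvPolynomial (Vr ι) K) :
    thM K τ (thP K τ f) = f := by
  have h : (thM K τ).comp (thP K τ) = AlgHom.id K _ := by
    apply MvPolynomial.algHom_ext
    rintro ⟨⟨i, j⟩, ε⟩
    rw [AlgHom.comp_apply, AlgHom.id_apply]
    by_cases hij : i = j
    · subst hij
      by_cases hi : i < τ i
      · rw [thP_rep hi, map_add, thM_rep hi, thM_nrep (by rw [hτ]; exact not_lt.2 hi.le)]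
        ring
      · rw [thP_nrep hi, thM_nrep hi]
    · rw [thP_off (v := ((i, j), ε)) hij, thM_off (v := ((i, j), ε)) hij]
  exact DFunLike.congr_fun h f

lemma thPM (hτ : Function.Involutive τ) (f : MvPolynomial (Vr ι) K) :
    thP K τ (thM K τ f) = f := by
  have h : (thP K τ).comp (thM K τ) = AlgHom.id K _ := by
    apply MvPolynomial.algHom_ext
    rintro ⟨⟨i, j⟩, ε⟩
    rw [AlgHom.comp_apply, AlgHom.id_apply]
    by_cases hij : i = j
    · subst hij
      by_cases hi : i < τ i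
      · rw [thM_rep hi, map_sub, thP_rep hi, thP_nrep (by rw [hτ]; exact not_lt.2 hi.le)]
        ring
      · rw [thM_nrep hi, thP_nrep hi]
    · rw [thM_off (v := ((i, j), ε)) hij, thP_off (v := ((i, j), ε)) hij]
  exact DFunLike.congr_fun h f

lemma thP_w {i j k : ι} (h1 : i ≠ j) (h2 : j ≠ k) : thP K τ (w i j k) = w i j k := by
  unfold w
  rw [map_sub, map_mul, map_mul, thP_off (v := ((i, j), false)) h1,
    thP_off (v := ((j, k), true)) h2, thP_off (v := ((i, j), true)) h1,
    thP_off (v := ((j, k), false)) h2]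

lemma thP_t (j : ι) : thP K τ (t τ j) = t τ j := by
  unfold t
  rw [map_sum]
  refine Finset.sum_congr rfl (fun k hk => ?_)
  rw [mem_off] at hk
  exact thP_w hk.1.symm hk.1

lemma thP_r (j : ι) : thP K τ (r τ j) = r τ j := by
  unfold r
  rw [map_sum]
  refine Finset.sum_congr rfl (fun k hk => ?_)
  rw [mem_off] at hk
  exact thP_w hk.1.symm hk.2

variable (K) in
/-- the entries of `XY - YX` -/
noncomputable def cc (i j : ι) : MvPolynomial (Vr ι) K := ∑ k, w i k j

lemma cc_split {i j : ι} (hi : i ≠ τ i) : cc K i j = w i i j + w i (τ i) j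
    + ∑ k ∈ off τ i, w i k j := by
  unfold cc
  rw [← Finset.add_sum_erase univ (fun k => w (K := K) i k j) (mem_univ i),
    ← Finset.add_sum_erase (univ.erase i) (fun k => w (K := K) i k j)
      (mem_erase.2 ⟨hi.symm, mem_univ _⟩), ← add_assoc]
  congr 1
  refine Finset.sum_congr ?_ (fun _ _ => rfl)
  ext k
  rw [mem_off, mem_erase, mem_erase]
  simp [and_comm]

lemma cc_diag {i : ι} (hi : i ≠ τ i) : cc K i i = w i (τ i) i + t τ i := by
  rw [cc_split (τ := τ) hi]
  unfold t
  have : w (K := K) i i i = 0 := by unfold w; ring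
  rw [this, zero_add]

lemma cc_fix {c : ι} (hc : τ c = c) : cc K c c = t τ c := by
  unfold cc t
  rw [← Finset.add_sum_erase univ (fun k => w (K := K) c k c) (mem_univ c)]
  have : w (K := K) c c c = 0 := by unfold w; ring
  rw [this, zero_add]
  refine Finset.sum_congr ?_ (fun _ _ => rfl)
  ext k
  rw [mem_off, mem_erase, hc]
  simp

lemma cc_anti {i : ι} (hi : i ≠ τ i) :
    cc K i (τ i) = w i i (τ i) + w i (τ i) (τ i) + r τ i := by
  rw [cc_split (τ := τ) hi]
  rfl

lemma th_G1 {a : ι} (ha : a < τ a) : thP K τ (cc K a a) = G1 K τ a := by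
  rw [cc_diag (τ := τ) ha.ne, map_add, thP_t, thP_w ha.ne ha.ne']; rfl

lemma th_G1' (hτ : Function.Involutive τ) {a : ι} (ha : a < τ a) :
    thP K τ (cc K (τ a) (τ a)) = T τ a - G1 K τ a := by
  rw [cc_diag (τ := τ) (by rw [hτ]; exact ha.ne'), hτ, map_add, thP_t, thP_w ha.ne' ha.ne, T_lt ha,
    w_anti]
  unfold G1
  ring

lemma th_fix {c : ι} (hc : τ c = c) : thP K τ (cc K c c) = t τ c := by
  rw [cc_fix hc, thP_t]

lemma th_G2 (hτ : Function.Involutive τ) {a : ι} (ha : a < τ a) :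
    thP K τ (cc K a (τ a)) = G2 K τ a := by
  rw [cc_anti (τ := τ) ha.ne, map_add, map_add, thP_r]
  unfold G2 w
  simp only [map_sub, map_mul]
  rw [thP_rep ha, thP_rep ha, thP_off (v := ((a, τ a), true)) ha.ne,
    thP_off (v := ((a, τ a), false)) ha.ne, thP_nrep (a := τ a) (by rw [hτ]; exact not_lt.2 ha.le),
    thP_nrep (a := τ a) (by rw [hτ]; exact not_lt.2 ha.le)]
  ring

lemma th_G3 (hτ : Function.Involutive τ) {a : ι} (ha : a < τ a) :
    thP K τ (cc K (τ a) a) = G3 K τ a := by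
  have h := cc_anti (K := K) (τ := τ) (i := τ a) (by rw [hτ]; exact ha.ne')
  rw [hτ] at h
  rw [h, map_add, map_add, thP_r]
  unfold G3 w
  simp only [map_sub, map_mul]
  rw [thP_rep ha, thP_rep ha, thP_off (v := ((τ a, a), true)) ha.ne',
    thP_off (v := ((τ a, a), false)) ha.ne', thP_nrep (a := τ a) (by rw [hτ]; exact not_lt.2 ha.le),
    thP_nrep (a := τ a) (by rw [hτ]; exact not_lt.2 ha.le)]
  ring

variable (K ι) in
noncomputable def II : Ideal (MvPolynomial (Vr ι) K) := Ideal.span (Set.range fun i : ι => cc K i i)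

variable (K τ) in
noncomputable def JJ : Ideal (MvPolynomial (Vr ι) K) :=
  Ideal.span (Set.range fun i : ι => cc K i (τ i))

lemma mem_II (i : ι) : cc K i i ∈ II ι K := Ideal.subset_span ⟨i, rfl⟩

lemma mem_JJ (i : ι) : cc K i (τ i) ∈ JJ K τ := Ideal.subset_span ⟨i, rfl⟩

lemma comap_eq (hτ : Function.Involutive τ) {I P : Ideal (MvPolynomial (Vr ι) K)}
    (h1 : I ≤ P.comap (thP K τ)) (h2 : P ≤ I.comap (thM K τ)) : I = P.comap (thP K τ) := by
  refine le_antisymm h1 (fun f hf => ?_)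
  have := h2 (Ideal.mem_comap.1 hf)
  rw [Ideal.mem_comap, thMP hτ] at this
  exact this

lemma of_th (hτ : Function.Involutive τ) {I : Ideal (MvPolynomial (Vr ι) K)}
    {f g : MvPolynomial (Vr ι) K} (hf : f ∈ I) (h : thP K τ f = g) : g ∈ I.comap (thM K τ) := by
  rw [Ideal.mem_comap, ← h, thMP hτ]
  exact hf

variable (τ) in
def HH : Finset ι := univ.filter (fun a => a < τ a)

lemma mem_HH {a : ι} : a ∈ HH τ ↔ a < τ a := by simp [HH]

theorem II_sup_JJ_prime (hτ : Function.Involutive τ) (h3 : ∀ i, ∃ k, k ≠ i ∧ k ≠ τ i) [Nonempty ι] :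
    (II ι K ⊔ JJ K τ).IsPrime := by
  have hP := I_prime (K := K) hτ h3 (HH τ) (fun a ha => mem_HH.1 ha)
  have hG : ∀ a, a < τ a → GG K τ a ≤ X0 K τ ⊔ (HH τ).sup (GG K τ) := fun a ha =>
    le_sup_of_le_right (Finset.le_sup (f := GG K τ) (mem_HH.2 ha))
  have hG1 : ∀ a, a < τ a → G1 K τ a ∈ X0 K τ ⊔ (HH τ).sup (GG K τ) := fun a ha =>
    hG a ha (Ideal.mem_sup_left (Ideal.mem_sup_left (Ideal.mem_span_singleton_self _)))
  have hG2 : ∀ a, a < τ a → G2 K τ a ∈ X0 K τ ⊔ (HH τ).sup (GG K τ) := fun a ha =>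
    hG a ha (Ideal.mem_sup_left (Ideal.mem_sup_right (Ideal.mem_span_singleton_self _)))
  have hG3 : ∀ a, a < τ a → G3 K τ a ∈ X0 K τ ⊔ (HH τ).sup (GG K τ) := fun a ha =>
    hG a ha (Ideal.mem_sup_right (Ideal.mem_span_singleton_self _))
  have hT : ∀ a, T τ a ∈ X0 K τ ⊔ (HH τ).sup (GG K τ) := fun a =>
    Ideal.mem_sup_left (mem_sp (mem_univ a))
  have e : II ι K ⊔ JJ K τ = (X0 K τ ⊔ (HH τ).sup (GG K τ)).comap (thP K τ) := by
    apply comap_eq hτ
    · refine sup_le ?_ ?_
      · unfold II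
        rw [Ideal.span_le]
        rintro _ ⟨i, rfl⟩
        rw [SetLike.mem_coe, Ideal.mem_comap]
        rcases lt_trichotomy i (τ i) with h | h | h
        · rw [th_G1 h]; exact hG1 i h
        · rw [th_fix h.symm, ← T_fix h.symm]; exact hT i
        · have h' : τ i < τ (τ i) := by rw [hτ]; exact h
          have := th_G1' (K := K) hτ h'
          rw [hτ] at this
          simp only
          rw [this]
          exact Ideal.sub_mem _ (hT _) (hG1 _ h')
      · unfold JJ
        rw [Ideal.span_le]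
        rintro _ ⟨i, rfl⟩
        rw [SetLike.mem_coe, Ideal.mem_comap]
        rcases lt_trichotomy i (τ i) with h | h | h
        · rw [th_G2 hτ h]; exact hG2 i h
        · have := th_fix (K := K) (τ := τ) h.symm
          simp only
          rw [← h, this, ← T_fix h.symm]; exact hT i
        · have h' : τ i < τ (τ i) := by rw [hτ]; exact h
          have := th_G3 (K := K) hτ h'
          rw [hτ] at this
          simp only
          rw [this]
          exact hG3 _ h'
    · have m1 : ∀ i, cc K i i ∈ II ι K ⊔ JJ K τ := fun i => Ideal.mem_sup_left (mem_II i)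
      have m2 : ∀ i, cc K i (τ i) ∈ II ι K ⊔ JJ K τ := fun i => Ideal.mem_sup_right (mem_JJ i)
      refine sup_le ?_ ?_
      · unfold X0 sp
        refine Finset.sup_le (fun j _ => ?_)
        rw [Ideal.span_singleton_le_iff_mem]
        rcases lt_trichotomy j (τ j) with h | h | h
        · refine of_th hτ (Ideal.add_mem _ (m1 j) (m1 (τ j))) ?_
          rw [map_add, th_G1 h, th_G1' hτ h]; ring
        · rw [T_fix h.symm]
          exact of_th hτ (m1 j) (th_fix h.symm)
        · rw [T_gt h]; exact Ideal.zero_mem _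
      · refine Finset.sup_le (fun j hj => ?_)
        rw [mem_HH] at hj
        unfold GG
        refine sup_le (sup_le ?_ ?_) ?_ <;> rw [Ideal.span_singleton_le_iff_mem]
        · exact of_th hτ (m1 j) (th_G1 hj)
        · exact of_th hτ (m2 j) (th_G2 hτ hj)
        · refine of_th hτ ?_ (th_G3 hτ hj)
          have := m2 (τ j)
          rwa [hτ] at this
  rw [e]
  exact Ideal.IsPrime.comap _

theorem JJ_prime (hτ : Function.Involutive τ) (h3 : ∀ i, ∃ k, k ≠ i ∧ k ≠ τ i)
    (hfix : ∀ i j, τ i = i → τ j = j → i = j) : (JJ K τ).IsPrime := by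
  have hP := J_prime (K := K) hτ h3 hfix (HH τ) (fun a ha => mem_HH.1 ha)
  have hG : ∀ a, a < τ a → GA K τ a ≤ F0 K τ ⊔ (HH τ).sup (GA K τ) := fun a ha =>
    le_sup_of_le_right (Finset.le_sup (f := GA K τ) (mem_HH.2 ha))
  have hG2 : ∀ a, a < τ a → G2 K τ a ∈ F0 K τ ⊔ (HH τ).sup (GA K τ) := fun a ha =>
    hG a ha (Ideal.mem_sup_left (Ideal.mem_span_singleton_self _))
  have hG3 : ∀ a, a < τ a → G3 K τ a ∈ F0 K τ ⊔ (HH τ).sup (GA K τ) := fun a ha =>
    hG a ha (Ideal.mem_sup_right (Ideal.mem_span_singleton_self _))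
  have hT : ∀ a, τ a = a → t τ a ∈ F0 K τ ⊔ (HH τ).sup (GA K τ) := fun a ha =>
    Ideal.mem_sup_left (mem_sp (mem_filter.2 ⟨mem_univ a, ha⟩))
  have e : JJ K τ = (F0 K τ ⊔ (HH τ).sup (GA K τ)).comap (thP K τ) := by
    apply comap_eq hτ
    · conv_lhs => unfold JJ
      rw [Ideal.span_le]
      rintro _ ⟨i, rfl⟩
      rw [SetLike.mem_coe, Ideal.mem_comap]
      rcases lt_trichotomy i (τ i) with h | h | h
      · rw [th_G2 hτ h]; exact hG2 i h
      · have := th_fix (K := K) (τ := τ) h.symm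
        simp only
        rw [← h, this]; exact hT i h.symm
      · have h' : τ i < τ (τ i) := by rw [hτ]; exact h
        have := th_G3 (K := K) hτ h'
        rw [hτ] at this
        simp only
        rw [this]
        exact hG3 _ h'
    · have m2 : ∀ i, cc K i (τ i) ∈ JJ K τ := fun i => mem_JJ i
      refine sup_le ?_ ?_
      · unfold F0 sp
        refine Finset.sup_le (fun j hj => ?_)
        rw [Ideal.span_singleton_le_iff_mem]
        have hj' : τ j = j := (mem_filter.1 hj).2
        refine of_th hτ ?_ (th_fix hj')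
        have := m2 j
        rwa [hj'] at this
      · refine Finset.sup_le (fun j hj => ?_)
        rw [mem_HH] at hj
        unfold GA
        refine sup_le ?_ ?_ <;> rw [Ideal.span_singleton_le_iff_mem]
        · exact of_th hτ (m2 j) (th_G2 hτ hj)
        · refine of_th hτ ?_ (th_G3 hτ hj)
          have := m2 (τ j)
          rwa [hτ] at this
  rw [e]
  exact Ideal.IsPrime.comap _

end Pool.Agent.V11319.Comm
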