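import Pool.Agent.V11319.Comm.Chain

/-! The ideal of the diagonal and anti-diagonal entries is prime (in normal form). -/

set_option autoImplicit false
set_option linter.unusedSectionVars false

open MvPolynomial Finset

namespace Pool.Agent.V11319.Comm

variable {ι : Type*} [Fintype ι] [LinearOrder ι] {K : Type*} [Field K] {τ : ι → ι}

lemma seq3 {Y : Ideal (MvPolynomial (Vr ι) K)} {f g1 g2 g3 : MvPolynomial (Vr ι) K}
    (h0 : Reg Y f) (h1 : Reg (Y ⊔ Ideal.span {f}) g1)
    (h2 : Reg (Y ⊔ Ideal.span {f} ⊔ Ideal.span {g1}) g2)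
    (h3 : Reg (Y ⊔ Ideal.span {f} ⊔ Ideal.span {g1} ⊔ Ideal.span {g2}) g3) :
    Reg (Y ⊔ Ideal.span {g1} ⊔ Ideal.span {g2} ⊔ Ideal.span {g3}) f := by
  have s1 := reg_switch h0 h1
  rw [sup_right_comm] at h2
  have s2 := reg_switch s1 h2
  have e : Y ⊔ Ideal.span {f} ⊔ Ideal.span {g1} ⊔ Ideal.span {g2}
      = Y ⊔ Ideal.span {g1} ⊔ Ideal.span {g2} ⊔ Ideal.span {f} := by ac_rfl
  rw [e] at h3
  exact reg_switch s2 h3

variable (K τ) in
noncomputable def G1 (a : ι) : MvPolynomial (Vr ι) K := w a (τ a) a + t τ a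

variable (K τ) in
noncomputable def G2 (a : ι) : MvPolynomial (Vr ι) K := w a a (τ a) + r τ a

variable (K τ) in
noncomputable def G3 (a : ι) : MvPolynomial (Vr ι) K := w (τ a) a a + r τ (τ a)

variable (K τ) in
noncomputable def GG (a : ι) : Ideal (MvPolynomial (Vr ι) K) :=
  Ideal.span {G1 K τ a} ⊔ Ideal.span {G2 K τ a} ⊔ Ideal.span {G3 K τ a}

def Bv (τ : ι → ι) (a : ι) (v : Vr ι) : Prop := v.1 = (a, a) ∨ v.1 = (a, τ a) ∨ v.1 = (τ a, a)

lemma Bv_blk (hτ : Function.Involutive τ) {a : ι} {v : Vr ι} (h : Bv τ a v) :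
    v.1.2 = v.1.1 ∨ v.1.2 = τ v.1.1 := by
  rcases h with h | h | h <;> rw [h]
  · left; rfl
  · right; rfl
  · right; simp only; rw [hτ]

lemma span_neg' (g : MvPolynomial (Vr ι) K) : Ideal.span {-g} = Ideal.span {g} :=
  Ideal.span_singleton_neg g

lemma blk_nodup {a : ι} (ha : a ≠ τ a) :
    [((a, a), false), ((a, a), true), ((a, τ a), false), ((a, τ a), true), ((τ a, a), false),
      ((τ a, a), true)].Nodup := by
  simp [ha, ha.symm]

lemma blk_Bv {a : ι} {v : Vr ι} (hv : v ∈ [((a, a), false), ((a, a), true), ((a, τ a), false),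
    ((a, τ a), true), ((τ a, a), false), ((τ a, a), true)]) : Bv τ a v := by
  simp only [List.mem_cons, List.not_mem_nil, or_false] at hv
  unfold Bv
  rcases hv with h | h | h | h | h | h <;> rw [h] <;> simp

lemma step (hτ : Function.Involutive τ) {a : ι} (ha : a < τ a)
    {Y : Ideal (MvPolynomial (Vr ι) K)} {f e : MvPolynomial (Vr ι) K}
    (hY : ∀ v, Bv τ a v → Fr v Y) (hf : ∀ v, Bv τ a v → fr v f) (he : e = t τ a ∨ e = r τ a)
    (h1 : Reg Y f) (h2 : Reg (Y ⊔ Ideal.span {f}) e) : Reg (Y ⊔ GG K τ a) f := by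
  have hZ : ∀ v, Bv τ a v → Fr v (Y ⊔ Ideal.span {f}) := fun v hv =>
    Fr_sup (hY v hv) (Fr_singleton (hf v hv))
  have hnd := blk_nodup ha.ne
  rcases he with rfl | rfl
  · obtain ⟨b1, b2, b3⟩ := block_reg (K := K) (Z := Y ⊔ Ideal.span {f}) hnd
      (t := t τ a) (r := r τ a) (s := -r τ (τ a))
      (fun v hv => ⟨hZ v (blk_Bv hv), fr_t_blk hτ (Bv_blk hτ (blk_Bv hv)) _,
        fr_r_blk hτ (Bv_blk hτ (blk_Bv hv)) _, fr_neg (fr_r_blk hτ (Bv_blk hτ (blk_Bv hv)) _)⟩)
      h2 (G1 := G1 K τ a) (G2 := G2 K τ a) (G3 := -G3 K τ a) (by unfold G1 w; rfl)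
      (by unfold G2 w; rfl) (by unfold G3 w; ring)
    have b3' := reg_of_neg b3
    have := seq3 h1 b1 b2 b3'
    unfold GG
    rwa [← sup_assoc, ← sup_assoc]
  · have hnd' : [((τ a, a), false), ((τ a, a), true), ((a, a), false), ((a, a), true),
        ((a, τ a), false), ((a, τ a), true)].Nodup := by
      simp [ha.ne, ha.ne.symm]
    have hB : ∀ v : Vr ι, v ∈ [((τ a, a), false), ((τ a, a), true), ((a, a), false),
        ((a, a), true), ((a, τ a), false), ((a, τ a), true)] → Bv τ a v := by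
      intro v hv
      simp only [List.mem_cons, List.not_mem_nil, or_false] at hv
      unfold Bv
      rcases hv with h | h | h | h | h | h <;> rw [h] <;> simp
    obtain ⟨b1, b2, b3⟩ := block_reg (K := K) (Z := Y ⊔ Ideal.span {f}) hnd'
      (t := r τ a) (r := r τ (τ a)) (s := -t τ a)
      (fun v hv => ⟨hZ v (hB v hv), fr_r_blk hτ (Bv_blk hτ (hB v hv)) _,
        fr_r_blk hτ (Bv_blk hτ (hB v hv)) _, fr_neg (fr_t_blk hτ (Bv_blk hτ (hB v hv)) _)⟩)
      h2 (G1 := G2 K τ a) (G2 := G3 K τ a) (G3 := -G1 K τ a) (by unfold G2 w; rfl)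
      (by unfold G3 w; rfl) (by unfold G1 w; ring)
    have b3' := reg_of_neg b3
    have := seq3 h1 b1 b2 b3'
    have e : Y ⊔ GG K τ a = Y ⊔ Ideal.span {G2 K τ a} ⊔ Ideal.span {G3 K τ a}
        ⊔ Ideal.span {G1 K τ a} := by
      unfold GG; ac_rfl
    rw [e]
    exact this

lemma Fr_GG (hτ : Function.Involutive τ) {a b : ι} (ha : a < τ a) (hb : b < τ b) (hab : a ≠ b)
    {v : Vr ι} (hv : Bv τ b v) : Fr v (GG K τ a) := by
  obtain ⟨n1, n2, n3⟩ := rep_ne hτ ha.le hb.le hab
  have hv1 : v.1.1 ≠ a ∧ v.1.1 ≠ τ a := by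
    rcases hv with h | h | h <;> rw [h]
    · exact ⟨hab.symm, n1⟩
    · exact ⟨hab.symm, n1⟩
    · exact ⟨n2, n3⟩
  have hw : ∀ i j k : ι, (i = a ∨ i = τ a) → (j = a ∨ j = τ a) → fr v (w (K := K) i j k) := by
    intro i j k hi hj
    refine fr_w (fun h => ?_) (fun h => ?_)
    · rw [h] at hv1
      rcases hi with h' | h'
      · exact hv1.1 h'
      · exact hv1.2 h'
    · rw [h] at hv1
      rcases hj with h' | h'
      · exact hv1.1 h'
      · exact hv1.2 h'
  unfold GG G1 G2 G3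
  exact Fr_sup (Fr_sup
    (Fr_singleton (fr_add (hw _ _ _ (by simp) (by simp)) (fr_t_blk hτ (Bv_blk hτ hv) _)))
    (Fr_singleton (fr_add (hw _ _ _ (by simp) (by simp)) (fr_r_blk hτ (Bv_blk hτ hv) _))))
    (Fr_singleton (fr_add (hw _ _ _ (by simp) (by simp)) (fr_r_blk hτ (Bv_blk hτ hv) _)))

theorem GR (hτ : Function.Involutive τ) (L : Finset ι) (hL : ∀ a ∈ L, a < τ a) :
    ∀ (X : Ideal (MvPolynomial (Vr ι) K)) (f : MvPolynomial (Vr ι) K)
      (e : ι → MvPolynomial (Vr ι) K), (∀ a ∈ L, ∀ v, Bv τ a v → Fr v X) →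
      (∀ a ∈ L, ∀ v, Bv τ a v → fr v f) → (∀ a ∈ L, e a = t τ a ∨ e a = r τ a) → Reg X f →
      (∀ U ⊆ L, ∀ c ∈ L, c ∉ U → Reg (X ⊔ Ideal.span {f} ⊔ sp e U) (e c)) →
      Reg (X ⊔ L.sup (GG K τ)) f := by
  classical
  induction L using Finset.induction_on with
  | empty =>
    intro X f e _ _ _ h _
    rw [Finset.sup_empty, sup_bot_eq]
    exact h
  | insert b L hbL ih =>
    intro X f e hX hf he h hyp
    have hLb : ∀ a ∈ L, a < τ a := fun a ha => hL a (mem_insert_of_mem ha)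
    have hb := hL b (mem_insert_self _ _)
    have hmem : ∀ a ∈ L, a ∈ insert b L := fun a ha => mem_insert_of_mem ha
    have e1 : X ⊔ (insert b L).sup (GG K τ) = (X ⊔ L.sup (GG K τ)) ⊔ GG K τ b := by
      rw [Finset.sup_insert]; ac_rfl
    rw [e1]
    refine step hτ hb (e := e b) ?_ (hf b (mem_insert_self _ _)) (he b (mem_insert_self _ _)) ?_ ?_
    · intro v hv
      refine Fr_sup (hX b (mem_insert_self _ _) v hv) (Fr_fsup _ (fun a ha => ?_))
      exact Fr_GG hτ (hLb a ha) hb (by rintro rfl; exact hbL ha) hv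
    · exact ih hLb X f e (fun a ha => hX a (hmem a ha)) (fun a ha => hf a (hmem a ha))
        (fun a ha => he a (hmem a ha)) h
        (fun U hU c hc hcU => hyp U (hU.trans (subset_insert _ _)) c (hmem c hc) hcU)
    · rw [sup_right_comm]
      refine ih hLb (X ⊔ Ideal.span {f}) (e b) e ?_ ?_ (fun a ha => he a (hmem a ha)) ?_ ?_
      · intro a ha v hv
        exact Fr_sup (hX a (hmem a ha) v hv) (Fr_singleton (hf a (hmem a ha) v hv))
      · intro a ha v hv
        rcases he b (mem_insert_self _ _) with h' | h' <;> rw [h']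
        · exact fr_t_blk hτ (Bv_blk hτ hv) _
        · exact fr_r_blk hτ (Bv_blk hτ hv) _
      · have := hyp ∅ (empty_subset _) b (mem_insert_self _ _) (by simp)
        rwa [sp_empty, sup_bot_eq] at this
      · intro U hU c hc hcU
        have hcb : c ≠ b := by rintro rfl; exact hbL hc
        have := hyp (insert b U) (insert_subset_insert _ hU) c (hmem c hc)
          (by rw [mem_insert, not_or]; exact ⟨hcb, hcU⟩)
        rwa [sp_insert, ← sup_assoc] at this

lemma Fr_X0 (hτ : Function.Involutive τ) {a : ι} {v : Vr ι} (hv : Bv τ a v) :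
    Fr v (X0 K τ) := by
  refine Fr_sp (fun i _ => ?_)
  rcases lt_trichotomy i (τ i) with h | h | h
  · rw [T_lt h]
    exact fr_add (fr_t_blk hτ (Bv_blk hτ hv) _) (fr_t_blk hτ (Bv_blk hτ hv) _)
  · rw [T_fix h.symm]; exact fr_t_blk hτ (Bv_blk hτ hv) _
  · rw [T_gt h]; exact fr_zero

lemma sp_congr {f g : ι → MvPolynomial (Vr ι) K} {U : Finset ι} (h : ∀ u ∈ U, f u = g u) :
    sp f U = sp g U := by
  unfold sp
  exact Finset.sup_congr rfl (fun u hu => by rw [h u hu])

/-- `t a` is regular modulo the ideal, for `a` in `L` or not -/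
lemma reg_t (hτ : Function.Involutive τ) (h3 : ∀ i, ∃ k, k ≠ i ∧ k ≠ τ i) (L : Finset ι)
    (hL : ∀ a ∈ L, a < τ a) {a : ι} (ha : a < τ a) :
    Reg (X0 K τ ⊔ L.sup (GG K τ)) (t τ a) := by
  classical
  refine GR hτ L hL (X0 K τ) (t τ a) (Function.update (t τ) a (r τ a))
    (fun b _ v hv => Fr_X0 hτ hv) (fun b _ v hv => fr_t_blk hτ (Bv_blk hτ hv) _) ?_ ?_ ?_
  · intro b _
    by_cases h : b = a
    · subst h; rw [Function.update_self]; right; rfl
    · rw [Function.update_of_ne h]; left; rfl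
  · have := P1 (K := K) hτ h3 ha (U := ∅) (by simp) (by simp)
    rwa [sp_empty, sup_bot_eq] at this
  · intro U hU c hc hcU
    have hUlt : ∀ u ∈ U, u < τ u := fun u hu => hL u (hU hu)
    have hclt := hL c hc
    by_cases hca : c = a
    · subst hca
      rw [Function.update_self, sp_congr (g := t τ) (fun u hu => Function.update_of_ne
        (by rintro rfl; exact hcU hu) _ _)]
      exact P2 hτ h3 ha hUlt hcU
    · rw [Function.update_of_ne hca]
      by_cases haU : a ∈ U
      · -- switch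
        set U' := U.erase a with hU'
        have hUU : U = insert a U' := by rw [hU', Finset.insert_erase haU]
        have hU'lt : ∀ u ∈ U', u < τ u := fun u hu => hUlt u (mem_of_mem_erase hu)
        have haU' : a ∉ U' := by simp [hU']
        have hcU' : c ∉ U' := fun h => hcU (mem_of_mem_erase h)
        have e1 : X0 K τ ⊔ Ideal.span {t τ a} ⊔ sp (Function.update (t τ) a (r τ a)) U
            = X0 K τ ⊔ Ideal.span {t τ a} ⊔ sp (t τ) U' ⊔ Ideal.span {r τ a} := by
          rw [hUU, sp_insert, Function.update_self, sp_congr (g := t τ) (fun u hu =>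
            Function.update_of_ne (by rintro rfl; exact haU' hu) _ _)]
          ac_rfl
        rw [e1]
        have p1 := P1 (K := K) hτ h3 hclt (U := insert a U') (by
          intro u hu
          rcases mem_insert.1 hu with rfl | hu
          · exact ha
          · exact hU'lt u hu) (by rw [mem_insert, not_or]; exact ⟨hca, hcU'⟩)
        rw [sp_insert, ← sup_assoc] at p1
        have p2 := P2 (K := K) hτ h3 ha (U := insert c U') (by
          intro u hu
          rcases mem_insert.1 hu with rfl | hu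
          · exact hclt
          · exact hU'lt u hu) (by rw [mem_insert, not_or]; exact ⟨Ne.symm hca, haU'⟩)
        have e2 : X0 K τ ⊔ Ideal.span {t τ a} ⊔ sp (t τ) (insert c U')
            = X0 K τ ⊔ Ideal.span {t τ a} ⊔ sp (t τ) U' ⊔ Ideal.span {t τ c} := by
          rw [sp_insert, ← sup_assoc, sup_right_comm]
        rw [e2] at p2
        exact reg_switch p1 p2
      · rw [sp_congr (g := t τ) (fun u hu => Function.update_of_ne
          (by rintro rfl; exact haU hu) _ _)]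
        have p1 := P1 (K := K) hτ h3 hclt (U := insert a U) (by
          intro u hu
          rcases mem_insert.1 hu with rfl | hu
          · exact ha
          · exact hUlt u hu) (by rw [mem_insert, not_or]; exact ⟨hca, hcU⟩)
        rwa [sp_insert, ← sup_assoc] at p1

theorem I_prime (hτ : Function.Involutive τ) (h3 : ∀ i, ∃ k, k ≠ i ∧ k ≠ τ i) [Nonempty ι]
    (L : Finset ι) (hL : ∀ a ∈ L, a < τ a) : (X0 K τ ⊔ L.sup (GG K τ)).IsPrime := by
  classical
  induction L using Finset.induction_on with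
  | empty =>
    rw [Finset.sup_empty, sup_bot_eq]
    exact X0_prime hτ
  | insert b L hbL ih =>
    have hLb : ∀ a ∈ L, a < τ a := fun a ha => hL a (mem_insert_of_mem ha)
    have hb := hL b (mem_insert_self _ _)
    have hI := ih hLb
    set I := X0 K τ ⊔ L.sup (GG K τ) with hIdef
    have hFI : ∀ v, Bv τ b v → Fr v I := by
      intro v hv
      refine Fr_sup (Fr_X0 hτ hv) (Fr_fsup _ (fun a ha => ?_))
      exact Fr_GG hτ (hLb a ha) hb (by rintro rfl; exact hbL ha) hv
    have B1 : ∀ ε, Bv τ b ((b, b), ε) := fun ε => Or.inl rfl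
    have B2 : ∀ ε, Bv τ b ((b, τ b), ε) := fun ε => Or.inr (Or.inl rfl)
    have B3 : ∀ ε, Bv τ b ((τ b, b), ε) := fun ε => Or.inr (Or.inr rfl)
    have hft : ∀ v, Bv τ b v → fr v (t (K := K) τ b) := fun v hv => fr_t_blk hτ (Bv_blk hτ hv) _
    have hfr : ∀ v, Bv τ b v → ∀ c, fr v (r (K := K) τ c) := fun v hv c =>
      fr_r_blk hτ (Bv_blk hτ hv) _
    have hI1 : (I ⊔ Ideal.span {G1 K τ b}).IsPrime :=
      prime_pivot (p := b) (k := τ b) hb.ne hI
        (fun ε => ⟨hFI _ (B2 ε), hFI _ (B3 ε)⟩) (fun ε => ⟨hft _ (B2 ε), hft _ (B3 ε)⟩) rfl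
    have hregI : Reg I (t τ b) := reg_t hτ h3 L hLb hb
    have hregG1 : Reg (I ⊔ Ideal.span {t τ b}) (G1 K τ b) :=
      reg_pivot (p := b) (k := τ b) hb.ne
        (fun ε => ⟨Fr_sup (hFI _ (B2 ε)) (Fr_singleton (hft _ (B2 ε))),
          Fr_sup (hFI _ (B3 ε)) (Fr_singleton (hft _ (B3 ε)))⟩)
        (fun ε => ⟨hft _ (B2 ε), hft _ (B3 ε)⟩) rfl
    have htI1 : t τ b ∉ I ⊔ Ideal.span {G1 K τ b} :=
      not_mem_of_reg hI1 (reg_switch hregI hregG1)
    have hfin : I ⊔ Ideal.span {G1 K τ b} ⊔ Ideal.span {G2 K τ b} ⊔ Ideal.span {-G3 K τ b}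
        = X0 K τ ⊔ (insert b L).sup (GG K τ) := by
      have hG : GG K τ b = Ideal.span {G1 K τ b} ⊔ Ideal.span {G2 K τ b}
          ⊔ Ideal.span {G3 K τ b} := rfl
      rw [span_neg', Finset.sup_insert, hIdef, hG]
      generalize L.sup (GG K τ) = M
      generalize X0 K τ = N
      generalize Ideal.span {G1 K τ b} = A
      generalize Ideal.span {G2 K τ b} = B
      generalize Ideal.span {G3 K τ b} = C
      ac_rfl
    have hreg : Reg (I ⊔ Ideal.span {G1 K τ b} ⊔ Ideal.span {G2 K τ b}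
        ⊔ Ideal.span {-G3 K τ b}) (t τ b) := by
      rw [hfin]
      exact reg_t hτ h3 _ hL hb
    rw [← hfin]
    have hne : b ≠ τ b := hb.ne
    have hFw : ∀ ε, fr ((b, b), ε) (G1 K τ b) := by
      intro ε
      unfold G1
      exact fr_add (fr_w (by simp [hne]) (by simp [hne])) (hft _ (B1 ε))
    refine prime_two (x := ((b, b), false)) (y := ((b, b), true)) (by simp) hI1
      (Fr_sup (hFI _ (B1 _)) (Fr_singleton (hFw _))) (Fr_sup (hFI _ (B1 _)) (Fr_singleton (hFw _)))
      (β1 := X ((b, τ b), false)) (β2 := X ((b, τ b), true)) (γ1 := X ((τ b, b), false))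
      (γ2 := X ((τ b, b), true)) (t := t τ b) (r := r τ b) (s := -r τ (τ b))
      ⟨fr_X (by simp [hne.symm]), fr_X (by simp), fr_X (by simp [hne.symm]), fr_X (by simp),
        hft _ (B1 _), hfr _ (B1 _) _, fr_neg (hfr _ (B1 _) _)⟩
      ⟨fr_X (by simp), fr_X (by simp [hne.symm]), fr_X (by simp), fr_X (by simp [hne.symm]),
        hft _ (B1 _), hfr _ (B1 _) _, fr_neg (hfr _ (B1 _) _)⟩ ?_ htI1
      (by unfold G2 w; rfl) (by unfold G3 w; ring) hreg
    exact mem_self (I := I) (G1 K τ b)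

end Pool.Agent.V11319.Comm
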