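import Mathlib

/-! Regular elements modulo ideals of polynomial rings, one variable at a time. -/

set_option autoImplicit false
set_option linter.unusedSectionVars false

open MvPolynomial

namespace Pool.Agent.V11319.Comm

variable {σ : Type*} [DecidableEq σ] {K : Type*} [Field K]

/-- separate the variable `x` -/
noncomputable def ph (x : σ) : MvPolynomial σ K →ₐ[K] Polynomial (MvPolynomial σ K) :=
  aeval (fun y => if y = x then Polynomial.X else Polynomial.C (X y))

lemma ph_X (x y : σ) : ph (K := K) x (X y) = if y = x then Polynomial.X else Polynomial.C (X y) := by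
  simp [ph]

lemma ph_X_self (x : σ) : ph (K := K) x (X x) = Polynomial.X := by simp [ph_X]

/-- `a` does not involve the variable `x` -/
def fr (x : σ) (a : MvPolynomial σ K) : Prop := ph x a = Polynomial.C a

lemma fr_X {x y : σ} (h : y ≠ x) : fr x (X y : MvPolynomial σ K) := by
  unfold fr; rw [ph_X, if_neg h]

lemma fr_add {x : σ} {a b : MvPolynomial σ K} (ha : fr x a) (hb : fr x b) : fr x (a + b) := by
  unfold fr at *; rw [map_add, ha, hb, map_add]

lemma fr_mul {x : σ} {a b : MvPolynomial σ K} (ha : fr x a) (hb : fr x b) : fr x (a * b) := by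
  unfold fr at *; rw [map_mul, ha, hb, map_mul]

lemma fr_neg {x : σ} {a : MvPolynomial σ K} (ha : fr x a) : fr x (-a) := by
  unfold fr at *; rw [map_neg, ha, map_neg]

lemma fr_sub {x : σ} {a b : MvPolynomial σ K} (ha : fr x a) (hb : fr x b) : fr x (a - b) := by
  unfold fr at *; rw [map_sub, ha, hb, map_sub]

lemma fr_zero {x : σ} : fr x (0 : MvPolynomial σ K) := by unfold fr; simp

lemma fr_one {x : σ} : fr x (1 : MvPolynomial σ K) := by unfold fr; simp

lemma fr_C {x : σ} (k : K) : fr x (C k : MvPolynomial σ K) := by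
  unfold fr ph
  rw [aeval_C]
  rfl

lemma fr_pow {x : σ} {a : MvPolynomial σ K} (ha : fr x a) (n : ℕ) : fr x (a ^ n) := by
  unfold fr at *; rw [map_pow, ha, map_pow]

lemma fr_sum {x : σ} {ι : Type*} (s : Finset ι) {a : ι → MvPolynomial σ K}
    (ha : ∀ i ∈ s, fr x (a i)) : fr x (∑ i ∈ s, a i) := by
  unfold fr at *
  rw [map_sum, map_sum]
  exact Finset.sum_congr rfl ha

lemma ph_eval (x : σ) (f : MvPolynomial σ K) : (ph x f).eval (X x) = f := by
  have h : (((Polynomial.aeval (X x) : Polynomial (MvPolynomial σ K) →ₐ[MvPolynomial σ K]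
      MvPolynomial σ K).restrictScalars K).comp (ph x)) = AlgHom.id K _ := by
    apply MvPolynomial.algHom_ext
    intro y
    simp only [AlgHom.comp_apply, AlgHom.restrictScalars_apply, AlgHom.id_apply, ph_X]
    split_ifs with hy
    · rw [Polynomial.aeval_X, hy]
    · simp
  have := congrArg (fun g => g f) h
  simp only [AlgHom.comp_apply, AlgHom.restrictScalars_apply, AlgHom.id_apply] at this
  rwa [Polynomial.coe_aeval_eq_eval] at this

lemma fr_coeff (x : σ) (f : MvPolynomial σ K) : ∀ k, fr x ((ph x f).coeff k) := by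
  induction f using MvPolynomial.induction_on with
  | C a =>
    intro k
    have h : ph x (C a : MvPolynomial σ K) = Polynomial.C (C a) := fr_C a
    rw [h, Polynomial.coeff_C]
    split_ifs
    · exact fr_C a
    · exact fr_zero
  | add p q hp hq =>
    intro k
    rw [map_add, Polynomial.coeff_add]
    exact fr_add (hp k) (hq k)
  | mul_X p y hp =>
    intro k
    rw [map_mul, ph_X]
    split_ifs with h
    · rcases k with _ | k
      · rw [Polynomial.mul_coeff_zero, Polynomial.coeff_X_zero, mul_zero]; exact fr_zero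
      · rw [Polynomial.coeff_mul_X]; exact hp k
    · rw [Polynomial.coeff_mul_C]
      exact fr_mul (hp k) (fr_X h)

/-- `g` is regular modulo `I` -/
def Reg (I : Ideal (MvPolynomial σ K)) (g : MvPolynomial σ K) : Prop := ∀ f, g * f ∈ I → f ∈ I

/-- `I` is independent of the variable `x` -/
def Fr (x : σ) (I : Ideal (MvPolynomial σ K)) : Prop := ∀ f ∈ I, ∀ k, (ph x f).coeff k ∈ I

lemma Fr_span {x : σ} {S : Set (MvPolynomial σ K)} (h : ∀ s ∈ S, fr x s) :
    Fr x (Ideal.span S) := by
  intro f hf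
  rw [← Ideal.mem_map_C_iff]
  have : Ideal.span S ≤ Ideal.comap (ph x) (Ideal.map Polynomial.C (Ideal.span S)) := by
    rw [Ideal.span_le]
    intro s hs
    show ph x s ∈ (Ideal.map Polynomial.C (Ideal.span S) : Ideal (Polynomial (MvPolynomial σ K)))
    rw [h s hs]
    exact Ideal.mem_map_of_mem _ (Ideal.subset_span hs)
  exact this hf

lemma Fr_singleton {x : σ} {g : MvPolynomial σ K} (h : fr x g) : Fr x (Ideal.span {g}) :=
  Fr_span (by simpa using h)

lemma Fr_bot {x : σ} : Fr x (⊥ : Ideal (MvPolynomial σ K)) := by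
  intro f hf k
  rw [Ideal.mem_bot] at hf
  rw [hf]; simp

lemma Fr_sup {x : σ} {I J : Ideal (MvPolynomial σ K)} (hI : Fr x I) (hJ : Fr x J) :
    Fr x (I ⊔ J) := by
  intro f hf k
  obtain ⟨i, hi, j, hj, rfl⟩ := Submodule.mem_sup.1 hf
  rw [map_add, Polynomial.coeff_add]
  exact Ideal.add_mem _ (Ideal.mem_sup_left (hI i hi k)) (Ideal.mem_sup_right (hJ j hj k))

lemma Fr_fsup {x : σ} {ι : Type*} (s : Finset ι) {I : ι → Ideal (MvPolynomial σ K)}
    (h : ∀ i ∈ s, Fr x (I i)) : Fr x (s.sup I) := by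
  classical
  induction s using Finset.induction_on with
  | empty => rw [Finset.sup_empty]; exact Fr_bot
  | insert i s hi ih =>
    rw [Finset.sup_insert]
    exact Fr_sup (h i (Finset.mem_insert_self _ _))
      (ih (fun j hj => h j (Finset.mem_insert_of_mem hj)))

lemma mem_of_coeff {x : σ} {I : Ideal (MvPolynomial σ K)} {f : MvPolynomial σ K}
    (h : ∀ k, (ph x f).coeff k ∈ I) : f ∈ I := by
  rw [← ph_eval x f, Polynomial.eval_eq_sum_range]
  exact Ideal.sum_mem _ (fun k _ => Ideal.mul_mem_right _ _ (h k))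

/-- linear in `x` with regular leading coefficient -/
lemma reg_lin {x : σ} {I : Ideal (MvPolynomial σ K)} {a b g : MvPolynomial σ K} (hI : Fr x I)
    (ha : fr x a) (hb : fr x b) (hr : Reg I a) (hg : g = a * X x + b) : Reg I g := by
  subst hg
  intro f hf
  apply mem_of_coeff (x := x)
  have h1 : ∀ k, a * (ph x f).coeff k + b * (ph x f).coeff (k + 1) ∈ I := by
    intro k
    have h := hI _ hf (k + 1)
    rw [map_mul, map_add, map_mul, ha, hb, ph_X_self, add_mul] at h
    rw [Polynomial.coeff_add, mul_assoc, Polynomial.coeff_C_mul, Polynomial.coeff_X_mul,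
      Polynomial.coeff_C_mul] at h
    exact h
  have key : ∀ m k, (ph x f).natDegree + 1 ≤ k + m → (ph x f).coeff k ∈ I := by
    intro m
    induction m with
    | zero =>
      intro k hk
      rw [Polynomial.coeff_eq_zero_of_natDegree_lt (by omega)]
      exact Ideal.zero_mem _
    | succ m ih =>
      intro k hk
      apply hr
      have h2 := ih (k + 1) (by omega)
      have h3 := Ideal.sub_mem _ (h1 k) (Ideal.mul_mem_left _ b h2)
      rwa [add_sub_cancel_right] at h3
  intro k
  exact key ((ph x f).natDegree + 1) k (by omega)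

lemma reg_one {I : Ideal (MvPolynomial σ K)} : Reg I 1 := by
  intro f hf; rwa [one_mul] at hf

lemma reg_var {x : σ} {I : Ideal (MvPolynomial σ K)} (hI : Fr x I) : Reg I (X x) :=
  reg_lin hI fr_one fr_zero reg_one (by ring)

lemma reg_neg {I : Ideal (MvPolynomial σ K)} {g : MvPolynomial σ K} (h : Reg I g) :
    Reg I (-g) := by
  intro f hf
  apply h
  have := Ideal.neg_mem_iff I |>.2 hf
  rwa [neg_mul, neg_neg] at this

lemma reg_of_neg {I : Ideal (MvPolynomial σ K)} {g : MvPolynomial σ K} (h : Reg I (-g)) :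
    Reg I g := by
  have := reg_neg h
  rwa [neg_neg] at this

lemma reg_pow {I : Ideal (MvPolynomial σ K)} {g : MvPolynomial σ K} (h : Reg I g) (n : ℕ) :
    Reg I (g ^ n) := by
  induction n with
  | zero => rw [pow_zero]; exact reg_one
  | succ n ih =>
    intro f hf
    rw [pow_succ, mul_assoc] at hf
    exact h _ (ih _ hf)

lemma reg_congr {I : Ideal (MvPolynomial σ K)} {g g' : MvPolynomial σ K} (h : Reg I g)
    (hg : g - g' ∈ I) : Reg I g' := by
  intro f hf
  apply h
  have : g * f = g' * f + (g - g') * f := by ring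
  rw [this]
  exact Ideal.add_mem _ hf (Ideal.mul_mem_right _ _ hg)

/-- the switching lemma -/
lemma reg_switch {I : Ideal (MvPolynomial σ K)} {p q : MvPolynomial σ K} (hp : Reg I p)
    (hq : Reg (I ⊔ Ideal.span {p}) q) : Reg (I ⊔ Ideal.span {q}) p := by
  intro f hf
  obtain ⟨i, hi, j, hj, hij⟩ := Submodule.mem_sup.1 hf
  obtain ⟨h, rfl⟩ := Ideal.mem_span_singleton'.1 hj
  have h1 : q * h ∈ I ⊔ Ideal.span {p} := by
    have : q * h = p * f - i := by rw [← hij]; ring
    rw [this]
    exact Ideal.sub_mem _ (Ideal.mem_sup_right (Ideal.mul_mem_right _ _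
      (Ideal.mem_span_singleton_self p))) (Ideal.mem_sup_left hi)
  obtain ⟨i', hi', j', hj', hij'⟩ := Submodule.mem_sup.1 (hq _ h1)
  obtain ⟨h', rfl⟩ := Ideal.mem_span_singleton'.1 hj'
  have h2 : p * (f - q * h') ∈ I := by
    have : p * (f - q * h') = i + q * i' := by
      rw [mul_sub, ← hij, ← hij']; ring
    rw [this]
    exact Ideal.add_mem _ hi (Ideal.mul_mem_left _ _ hi')
  have h3 := hp _ h2
  have : f = (f - q * h') + q * h' := by ring
  rw [this]
  exact Ideal.add_mem _ (Ideal.mem_sup_left h3) (Ideal.mem_sup_right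
    (Ideal.mul_mem_right _ _ (Ideal.mem_span_singleton_self q)))

lemma sup_span_congr {I : Ideal (MvPolynomial σ K)} {p q : MvPolynomial σ K} (h : p - q ∈ I) :
    I ⊔ Ideal.span {p} = I ⊔ Ideal.span {q} := by
  apply le_antisymm
  · refine sup_le le_sup_left ?_
    rw [Ideal.span_singleton_le_iff_mem]
    have : p = (p - q) + q := by ring
    rw [this]
    exact Ideal.add_mem _ (Ideal.mem_sup_left h)
      (Ideal.mem_sup_right (Ideal.mem_span_singleton_self q))
  · refine sup_le le_sup_left ?_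
    rw [Ideal.span_singleton_le_iff_mem]
    have : q = p - (p - q) := by ring
    rw [this]
    exact Ideal.sub_mem _ (Ideal.mem_sup_right (Ideal.mem_span_singleton_self p))
      (Ideal.mem_sup_left h)

lemma mem_self {I : Ideal (MvPolynomial σ K)} (p : MvPolynomial σ K) :
    p ∈ I ⊔ Ideal.span {p} := Ideal.mem_sup_right (Ideal.mem_span_singleton_self p)

lemma not_mem_of_reg {I : Ideal (MvPolynomial σ K)} (hI : I.IsPrime) {p : MvPolynomial σ K}
    (h : Reg I p) : p ∉ I := by
  intro hp
  have : p * 1 ∈ I := by rwa [mul_one]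
  exact hI.ne_top (I.eq_top_iff_one.2 (h 1 this))

lemma reg_of_not_mem {I : Ideal (MvPolynomial σ K)} (hI : I.IsPrime) {p : MvPolynomial σ K}
    (h : p ∉ I) : Reg I p := fun _ hf => (hI.mem_or_mem hf).resolve_left h

/-- adjoining the solution of `a x + b = 0` over a prime ideal -/
lemma exists_Q {x : σ} {I : Ideal (MvPolynomial σ K)} (hIp : I.IsPrime) (hI : Fr x I)
    {a b : MvPolynomial σ K} (ha : fr x a) (hb : fr x b) (haI : a ∉ I) :
    ∃ Q : Ideal (MvPolynomial σ K), Q.IsPrime ∧ a ∉ Q ∧
      ∀ f, f ∈ Q ↔ ∃ N : ℕ, a ^ N * f ∈ I ⊔ Ideal.span {a * X x + b} := by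
  classical
  have := hIp
  let F := FractionRing (MvPolynomial σ K ⧸ I)
  let j : MvPolynomial σ K →+* F := (algebraMap (MvPolynomial σ K ⧸ I) F).comp (Ideal.Quotient.mk I)
  have hj : ∀ h, j h = 0 ↔ h ∈ I := by
    intro h
    show algebraMap _ F (Ideal.Quotient.mk I h) = 0 ↔ _
    rw [IsFractionRing.to_map_eq_zero_iff, Ideal.Quotient.eq_zero_iff_mem]
  have hja : j a ≠ 0 := fun h => haI ((hj a).1 h)
  let Φ : MvPolynomial σ K →+* F := (Polynomial.eval₂RingHom j (-(j b) / j a)).comp
    (ph x : MvPolynomial σ K →ₐ[K] Polynomial (MvPolynomial σ K)).toRingHom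
  have hΦ : ∀ f, Φ f = Polynomial.eval₂ j (-(j b) / j a) (ph x f) := fun f => rfl
  have hΦfr : ∀ h, fr x h → Φ h = j h := by
    intro h hh
    rw [hΦ, hh, Polynomial.eval₂_C]
  have hΦx : Φ (X x) = -(j b) / j a := by rw [hΦ, ph_X_self, Polynomial.eval₂_X]
  have hΦg : Φ (a * X x + b) = 0 := by
    rw [map_add, map_mul, hΦfr a ha, hΦfr b hb, hΦx, mul_div_assoc', mul_comm (j a),
      mul_div_assoc, div_self hja, mul_one, neg_add_cancel]
  have hΦI : ∀ f ∈ I, Φ f = 0 := by
    intro f hf
    rw [hΦ, Polynomial.eval₂_eq_sum_range]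
    refine Finset.sum_eq_zero (fun k _ => ?_)
    rw [(hj _).2 (hI f hf k), zero_mul]
  have hΦJ : ∀ f ∈ I ⊔ Ideal.span {a * X x + b}, Φ f = 0 := by
    intro f hf
    obtain ⟨i, hi, k, hk, rfl⟩ := Submodule.mem_sup.1 hf
    obtain ⟨h, rfl⟩ := Ideal.mem_span_singleton'.1 hk
    rw [map_add, hΦI i hi, map_mul, hΦg, mul_zero, add_zero]
  refine ⟨RingHom.ker Φ, RingHom.ker_isPrime Φ, ?_, fun f => ?_⟩
  · rw [RingHom.mem_ker, hΦfr a ha]; exact hja
  · rw [RingHom.mem_ker]
    constructor
    · intro hf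
      set N := (ph x f).natDegree with hN
      refine ⟨N, ?_⟩
      set h := ∑ k ∈ Finset.range (N + 1), (ph x f).coeff k * ((-b) ^ k * a ^ (N - k)) with hh
      have hfrh : fr x h := fr_sum _ (fun k _ => fr_mul (fr_coeff x f k)
        (fr_mul (fr_pow (fr_neg hb) k) (fr_pow ha _)))
      have hdiff : a ^ N * f - h ∈ Ideal.span {a * X x + b} := by
        have e : a ^ N * f = ∑ k ∈ Finset.range (N + 1), (ph x f).coeff k *
            ((a * X x) ^ k * a ^ (N - k)) := by
          conv_lhs => rw [← ph_eval x f, Polynomial.eval_eq_sum_range, Finset.mul_sum]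
          refine Finset.sum_congr rfl (fun k hk => ?_)
          have hk' : k ≤ N := by
            rw [Finset.mem_range] at hk; omega
          have : a ^ N = a ^ k * a ^ (N - k) := by rw [← pow_add]; congr 1; omega
          rw [this, mul_pow]; ring
        rw [e, hh, ← Finset.sum_sub_distrib]
        refine Ideal.sum_mem _ (fun k _ => ?_)
        rw [← mul_sub, ← sub_mul]
        refine Ideal.mul_mem_left _ _ (Ideal.mul_mem_right _ _ ?_)
        rw [Ideal.mem_span_singleton]
        have := sub_dvd_pow_sub_pow (a * X x) (-b) k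
        rwa [sub_neg_eq_add] at this
      have h0 : h ∈ I := by
        rw [← hj, ← hΦfr h hfrh]
        have h1 := hΦJ _ (Ideal.mem_sup_right hdiff)
        rw [map_sub, map_mul, hf, mul_zero, zero_sub, neg_eq_zero] at h1
        exact h1
      have : a ^ N * f = h + (a ^ N * f - h) := by ring
      rw [this]
      exact Ideal.add_mem _ (Ideal.mem_sup_left h0) (Ideal.mem_sup_right hdiff)
    · rintro ⟨N, hN⟩
      have h1 := hΦJ _ hN
      rw [map_mul, map_pow, hΦfr a ha] at h1
      exact (mul_eq_zero.1 h1).resolve_left (pow_ne_zero _ hja)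

/-- Lemma A -/
lemma prime_lin {x : σ} {I : Ideal (MvPolynomial σ K)} (hIp : I.IsPrime) (hI : Fr x I)
    {a b g : MvPolynomial σ K} (ha : fr x a) (hb : fr x b) (haI : a ∉ I)
    (hr : Reg (I ⊔ Ideal.span {a}) b) (hg : g = a * X x + b) :
    (I ⊔ Ideal.span {g}).IsPrime := by
  subst hg
  obtain ⟨Q, hQ, _, hQm⟩ := exists_Q hIp hI ha hb haI
  have h1 : Reg (I ⊔ Ideal.span {a * X x + b}) a := by
    refine reg_switch (reg_of_not_mem hIp haI) (reg_congr hr ?_)
    have : b - (a * X x + b) = a * (-X x) := by ring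
    rw [this]
    exact Ideal.mul_mem_right _ _ (mem_self a)
  have : I ⊔ Ideal.span {a * X x + b} = Q := by
    ext f
    rw [hQm]
    constructor
    · intro h; exact ⟨0, by rwa [pow_zero, one_mul]⟩
    · rintro ⟨N, hN⟩; exact reg_pow h1 N f hN
  rw [this]
  exact hQ

lemma fr_eq {x : σ} {a : MvPolynomial σ K} (h : fr x a) : ph x a = Polynomial.C a := h

lemma Fr_mem {x : σ} {I : Ideal (MvPolynomial σ K)} (h : Fr x I) {f : MvPolynomial σ K}
    (hf : f ∈ I) (k : ℕ) : (ph x f).coeff k ∈ I := h f hf k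

lemma Fr_mk {x : σ} {I : Ideal (MvPolynomial σ K)}
    (h : ∀ f ∈ I, ∀ k, (ph x f).coeff k ∈ I) : Fr x I := h

attribute [irreducible] fr Fr

end Pool.Agent.V11319.Comm
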